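import Pool.Agent.Lib.MP_4e5fcd_ag.NW.B4

/-!
# NW-B5: visible values

See the header of NW-B4: `vis_red`, `near_red`, `per_red`.
`sum_nonneg'`: from `chi_mon` (NW-A4); if `c = 0` the sum is `0`; otherwise `e ∣ M` because
`c = χ (CT … e) = χ (CT … (gcd e M))`, so `e ∣ gcd e M`; the sum is over the multiples `e j`,
`1 ≤ j ≤ M / e`, of `c (lam ^ e) ^ j`; `(lam ^ e) ^ (M / e) = 1`: it is `c (M / e)` or `0`
(geometric sum).
-/

open MvPolynomial

namespace MotMono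
namespace NW

open CN HY

variable {N s : ℕ}

/-- the sum over the multiples of `e` up to `e k` -/
private theorem b5_multiples (e k : ℕ) (he : 0 < e) (c : ℤ) (lam : ℂ) :
    ∑ d ∈ Finset.Icc 1 (e * k), lam ^ d * (((if e ∣ d then c else 0) : ℤ) : ℂ) =
      (c : ℂ) * ∑ j ∈ Finset.range k, (lam ^ e) ^ (j + 1) := by
  induction k with
  | zero => simp
  | succ k ih =>
    have hsplit : Finset.Icc 1 (e * (k + 1)) =
        Finset.Icc 1 (e * k) ∪ Finset.Icc (e * k + 1) (e * (k + 1)) := by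
      ext d
      simp only [Finset.mem_union, Finset.mem_Icc]
      constructor
      · rintro ⟨h1, h2⟩
        by_cases h3 : d ≤ e * k
        · exact Or.inl ⟨h1, h3⟩
        · exact Or.inr ⟨by omega, h2⟩
      · rintro (⟨h1, h2⟩ | ⟨h1, h2⟩)
        · exact ⟨h1, h2.trans (Nat.mul_le_mul_left e (Nat.le_succ k))⟩
        · exact ⟨by omega, h2⟩
    have hdis : Disjoint (Finset.Icc 1 (e * k)) (Finset.Icc (e * k + 1) (e * (k + 1))) := by
      rw [Finset.disjoint_left]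
      intro d h1 h2
      rw [Finset.mem_Icc] at h1 h2
      omega
    have hlast : ∑ d ∈ Finset.Icc (e * k + 1) (e * (k + 1)),
        lam ^ d * (((if e ∣ d then c else 0) : ℤ) : ℂ) = (c : ℂ) * (lam ^ e) ^ (k + 1) := by
      rw [Finset.sum_eq_single (e * (k + 1))]
      · rw [if_pos (Dvd.intro _ rfl), ← pow_mul, mul_comm]
      · intro d h1 h2
        rw [Finset.mem_Icc] at h1
        have h3 : ¬ e ∣ d := by
          rintro ⟨j, rfl⟩
          have h4 : k < j := by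
            by_contra h5
            have h6 : e * j ≤ e * k := Nat.mul_le_mul_left e (not_lt.1 h5)
            omega
          have h5 : j ≤ k + 1 := by
            by_contra h6
            have h7 : e * (k + 2) ≤ e * j := Nat.mul_le_mul_left e (by omega)
            have h8 : e * (k + 2) = e * (k + 1) + e := by ring
            omega
          have h6 : j = k + 1 := by omega
          exact h2 (by rw [h6])
        rw [if_neg h3]
        simp
      · intro h1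
        exfalso
        apply h1
        rw [Finset.mem_Icc]
        refine ⟨?_, le_rfl⟩
        have : e * (k + 1) = e * k + e := by ring
        omega
    rw [hsplit, Finset.sum_union hdis, ih, hlast, Finset.sum_range_succ]
    ring

private theorem b5_geom (w : ℂ) (k : ℕ) (hw : w ^ k = 1) :
    ∃ ρ : ℝ, 0 ≤ ρ ∧ ∑ j ∈ Finset.range k, w ^ (j + 1) = (ρ : ℂ) := by
  by_cases h1 : w = 1
  · refine ⟨k, Nat.cast_nonneg k, ?_⟩
    subst h1
    simp
  · refine ⟨0, le_rfl, ?_⟩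
    have h2 : ∑ j ∈ Finset.range k, w ^ (j + 1) = w * ∑ j ∈ Finset.range k, w ^ j := by
      rw [Finset.mul_sum]
      exact Finset.sum_congr rfl fun j _ => by ring
    have h3 := geom_sum_mul w k
    rw [hw, sub_self] at h3
    have h4 : ∑ j ∈ Finset.range k, w ^ j = 0 :=
      (mul_eq_zero.1 h3).resolve_right (sub_ne_zero.2 h1)
    rw [h2, h4]
    simp

theorem sum_nonneg' {χ : K0 →+* ℤ} (hχ : IsEulerCharF χ) (m : Fin s → (Fin N →₀ ℕ))
    (p : Fin N → ℂ) (z : Fin s → ℂ) {M : ℕ} (hM : 0 < M)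
    (hper : ∀ d, 0 < d → χ (cls (CT (mon m) p z d)) = χ (cls (CT (mon m) p z (Nat.gcd d M))))
    {lam : ℂ} (hl : lam ^ M = 1) :
    ∃ ρ : ℝ, 0 ≤ ρ ∧
      ∑ d ∈ Finset.Icc 1 M, lam ^ d * ((χ (cls (CT (mon m) p z d)) : ℤ) : ℂ) = (ρ : ℂ) := by
  obtain ⟨c, e, he, hc⟩ := chi_mon hχ m p z
  have hsum : ∑ d ∈ Finset.Icc 1 M, lam ^ d * ((χ (cls (CT (mon m) p z d)) : ℤ) : ℂ) =
      ∑ d ∈ Finset.Icc 1 M, lam ^ d * (((if e ∣ d then (c : ℤ) else 0) : ℤ) : ℂ) := by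
    refine Finset.sum_congr rfl fun d hd => ?_
    rw [hc d (Finset.mem_Icc.1 hd).1]
  rw [hsum]
  by_cases hc0 : c = 0
  · refine ⟨0, le_rfl, ?_⟩
    subst hc0
    simp
  · have h1 : e ∣ M := by
      have h2 := hper e he
      rw [hc e he, hc _ (Nat.gcd_pos_of_pos_left _ he), if_pos (dvd_refl e)] at h2
      by_cases h3 : e ∣ Nat.gcd e M
      · exact h3.trans (Nat.gcd_dvd_right e M)
      · rw [if_neg h3] at h2
        exact absurd (by exact_mod_cast h2) hc0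
    obtain ⟨k, rfl⟩ := h1
    rw [b5_multiples e k he]
    obtain ⟨ρ, hρ, h2⟩ := b5_geom (lam ^ e) k (by rw [← pow_mul]; exact hl)
    refine ⟨c * ρ, mul_nonneg (Nat.cast_nonneg c) hρ, ?_⟩
    rw [h2]
    push_cast
    ring

theorem vis_red {χ : K0 →+* ℤ} (hχ : IsEulerCharF χ) (I : Ideal (MvPolynomial (Fin N) ℂ))
    (m : Fin s → (Fin N →₀ ℕ)) (h : MvPolynomial (Fin N) ℂ) (hI : RedAt I m h) (p : Fin N → ℂ)
    (hp : eval p h ≠ 0) (hP : PerAt χ (Ideal.span (Set.range (mon m))) p) {lam : ℂ}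
    (hv : CN.Vis χ (Ideal.span (Set.range (mon m))) p lam) : CN.Vis χ I p lam := by
  obtain ⟨r, f, rfl⟩ : ∃ (r : ℕ) (f : Fin r → MvPolynomial (Fin N) ℂ),
      I = Ideal.span (Set.range f) := by
    obtain ⟨r, f, hf⟩ := Submodule.fg_iff_exists_fin_generating_family.1 (IsNoetherian.noetherian I)
    exact ⟨r, f, hf.symm⟩
  obtain ⟨M, hM, hper⟩ := perT_of_perAt (mon m) p hP
  obtain ⟨hl, -, z, hz, hne⟩ := sum_ne_zero hχ (mon m) p hM hper hv
  obtain ⟨d, hd, hd2⟩ := Finset.exists_ne_zero_of_sum_ne_zero hne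
  have hd0 : 0 < d := (Finset.mem_Icc.1 hd).1
  obtain ⟨γ, hγ⟩ : (CT (mon m) p z d).Nonempty := by
    rw [Set.nonempty_iff_ne_empty]
    intro h1
    apply hd2
    rw [h1, cls_empty]
    simp
  have hb : eval (bp γ) h ≠ 0 := by rw [hγ.1]; exact hp
  have h1 : TO f d γ := (ordGe_iff f d γ).1
    ((ordGe_red_iff _ m h hI γ hb d).2 ((ordGe_iff (mon m) d γ).2 hγ.2.1))
  have hy : vec f d γ ≠ 0 := by
    intro h2
    have h3 : TO f (d + 1) γ := by
      intro j l hl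
      rcases Nat.lt_succ_iff_lt_or_eq.1 hl with h4 | h4
      · exact h1 j l h4
      · rw [h4]
        exact congrFun h2 j
    have h4 := (ordGe_iff (mon m) (d + 1) γ).1
      ((ordGe_red_iff _ m h hI γ hb (d + 1)).1 ((ordGe_iff f (d + 1) γ).2 h3))
    apply hz
    rw [← hγ.2.2]
    funext l
    exact h4 l d (Nat.lt_succ_self d)
  obtain ⟨Zs, hZ0, hZm, hZs⟩ := chi_sum χ f m h hI p hp (vec f d γ) hy
  by_contra hno
  have hper2 : ∀ d', 0 < d' → χ (cls (CT f p (vec f d γ) d')) =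
      χ (cls (CT f p (vec f d γ) (Nat.gcd d' M))) := by
    intro d' hd'
    rw [hZs d' hd', hZs _ (Nat.gcd_pos_of_pos_left _ hd')]
    exact Finset.sum_congr rfl fun z' hz' => hper z' (hZ0 z' hz') d' hd'
  have h0 := sum_eq_zero hχ f p (vec f d γ) hy hM hper2 hl hno
  have h2 : ∑ m' ∈ Finset.Icc 1 M, lam ^ m' * ((χ (cls (CT f p (vec f d γ) m')) : ℤ) : ℂ) =
      ∑ z' ∈ Zs, ∑ m' ∈ Finset.Icc 1 M,
        lam ^ m' * ((χ (cls (CT (mon m) p z' m')) : ℤ) : ℂ) := by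
    rw [Finset.sum_comm]
    refine Finset.sum_congr rfl fun m' hm' => ?_
    rw [hZs m' (Finset.mem_Icc.1 hm').1, Int.cast_sum, Finset.mul_sum]
  rw [h2] at h0
  have h3 : ∀ z' : Fin s → ℂ, ∃ ρ : ℝ, z' ∈ Zs → 0 ≤ ρ ∧ ∑ m' ∈ Finset.Icc 1 M,
      lam ^ m' * ((χ (cls (CT (mon m) p z' m')) : ℤ) : ℂ) = (ρ : ℂ) := by
    intro z'
    by_cases h4 : z' ∈ Zs
    · obtain ⟨ρ, h5⟩ := sum_nonneg' hχ m p z' hM (hper z' (hZ0 z' h4)) hl
      exact ⟨ρ, fun _ => h5⟩
    · exact ⟨0, fun h5 => absurd h5 h4⟩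
  choose ρ hρ using h3
  have h4 : ∑ z' ∈ Zs, ρ z' = 0 := by
    have h5 : ((∑ z' ∈ Zs, ρ z' : ℝ) : ℂ) = 0 := by
      rw [Complex.ofReal_sum, ← h0]
      exact Finset.sum_congr rfl fun z' hz' => ((hρ z' hz').2).symm
    exact_mod_cast h5
  have h5 := (Finset.sum_eq_zero_iff_of_nonneg fun z' hz' => (hρ z' hz').1).1 h4
  have h6 : z ∈ Zs := by
    obtain ⟨z', hz', h7⟩ := (hZm d hd0 γ).1 ⟨hγ.1, h1, rfl⟩
    have h8 : z' = z := by rw [← h7.2.2, hγ.2.2]
    rw [← h8]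
    exact hz'
  apply hne
  rw [(hρ z h6).2, h5 z h6]
  simp

theorem near_red {χ : K0 →+* ℤ} (hχ : IsEulerCharF χ) (I : Ideal (MvPolynomial (Fin N) ℂ))
    (m : Fin s → (Fin N →₀ ℕ)) (h : MvPolynomial (Fin N) ℂ) (hI : RedAt I m h)
    (h0 : eval 0 h ≠ 0) (hP : Per χ (Ideal.span (Set.range (mon m))) 0) {lam : ℂ}
    (hn : CN.Near χ (Ideal.span (Set.range (mon m))) 0 lam) : CN.Near χ I 0 lam := by
  intro ε hε
  obtain ⟨h', h0', hq⟩ := hP
  have h1 : eval 0 (h * h') ≠ 0 := by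
    rw [map_mul]
    exact mul_ne_zero h0 h0'
  obtain ⟨δ, hδ, hb⟩ := exists_ball h1
  obtain ⟨p, hpn, hv⟩ := hn (min δ ε) (lt_min hδ hε)
  rw [sub_zero] at hpn
  have h2 := hb p (hpn.trans_le (min_le_left _ _))
  rw [map_mul] at h2
  refine ⟨p, ?_, vis_red hχ I m h hI p (left_ne_zero_of_mul h2)
    (hq p (right_ne_zero_of_mul h2)) hv⟩
  rw [sub_zero]
  exact hpn.trans_le (min_le_right _ _)

theorem per_red {χ : K0 →+* ℤ} (hχ : IsEulerCharF χ) (I : Ideal (MvPolynomial (Fin N) ℂ))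
    (m : Fin s → (Fin N →₀ ℕ)) (h : MvPolynomial (Fin N) ℂ) (hI : RedAt I m h)
    (h0 : eval 0 h ≠ 0) (hP : Per χ (Ideal.span (Set.range (mon m))) 0) : Per χ I 0 := by
  obtain ⟨h', h0', hq⟩ := hP
  refine ⟨h * h', ?_, fun q hqq => ?_⟩
  · rw [map_mul]
    exact mul_ne_zero h0 h0'
  · rw [map_mul] at hqq
    exact perAt_red hχ I m h hI q (left_ne_zero_of_mul hqq) (hq q (right_ne_zero_of_mul hqq))

end NW
end MotMono
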