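import Pool.Agent.Lib.MP_4e5fcd_ag.NW.Base
import Pool.Agent.Lib.MP_4e5fcd_ag.HY.R4

/-!
# NW-A3: monomials along jets with given leading coefficients; the class of the set of these jets

`along_DD_zero`: `along (monomial m 1) γ = ∏ i, (arc γ i) ^ (m i)` and `arc γ i = 0` for some `i ∈ J`
with `m i ≠ 0`.
`along_DD`: for `i ∉ J`: `arc γ i = X ^ (a i) * u_i` with `u_i (0) = b i` (as `a i ≤ d`;
`Polynomial.X_pow_dvd_iff` and coefficient `a i`), for `i ∈ J` the factor is `1` (`m i = 0`). So the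
product is `X ^ (∑ a i * m i) * ∏ u_i ^ (m i)`.
`chi_DD`: `DD d J a b` is given by prescribing some of the coordinates `γ q` (`q ∈ Q`), so it is
isomorphic to an affine space (`cls_iso` with the remaining coordinates, `cls_univ`), or: shift the
prescribed coordinates to `0` (an isomorphism) and use `chi_fixed` (HY/R4) with the weights `1`
everywhere: the fixed set is the point `0`. `χ LL = 1`.
-/

open MvPolynomial

namespace MotMono
namespace NW

open CN HY

variable {N : ℕ}

private theorem a3_along {n : ℕ} (γ : Fin N × Fin n → ℂ) (m : Fin N →₀ ℕ) :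
    along (monomial m (1 : ℂ)) γ = ∏ i, arc γ i ^ m i := by
  unfold along
  rw [MvPolynomial.aeval_monomial, map_one, one_mul]
  exact Finsupp.prod_fintype m _ fun i => pow_zero _

theorem along_DD_zero {d : ℕ} {J : Set (Fin N)} {a : Fin N → ℕ} {b : Fin N → ℂ}
    {γ : Fin N × Fin (d + 1) → ℂ} (hγ : γ ∈ DD d J a b) (m : Fin N →₀ ℕ)
    (hm : ∃ i ∈ J, m i ≠ 0) : along (monomial m (1 : ℂ)) γ = 0 := by
  obtain ⟨i, hi, hmi⟩ := hm
  rw [a3_along]
  refine Finset.prod_eq_zero (Finset.mem_univ i) ?_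
  have h1 : arc γ i = 0 := by
    ext l
    rw [a1_arc_coeff, Polynomial.coeff_zero]
    split_ifs with h
    · exact hγ.1 i hi _
    · rfl
  rw [h1, zero_pow hmi]

private theorem a3_factor {d : ℕ} {J : Set (Fin N)} {a : Fin N → ℕ} {b : Fin N → ℂ}
    {γ : Fin N × Fin (d + 1) → ℂ} (hγ : γ ∈ DD d J a b) (ha : ∀ i, i ∉ J → a i ≤ d)
    (m : Fin N →₀ ℕ) (hm : ∀ i ∈ J, m i = 0) (i : Fin N) :
    ∃ u : Polynomial ℂ, arc γ i ^ m i = Polynomial.X ^ (a i * m i) * u ∧
      u.coeff 0 = b i ^ m i := by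
  by_cases hi : i ∈ J
  · refine ⟨1, ?_, ?_⟩
    · rw [hm i hi, pow_zero, mul_zero, pow_zero, one_mul]
    · rw [hm i hi, pow_zero, Polynomial.coeff_one_zero]
  · have h1 : Polynomial.X ^ a i ∣ arc γ i := by
      rw [Polynomial.X_pow_dvd_iff]
      intro l hl
      have h2 : l < d + 1 := by have := ha i hi; omega
      rw [a1_arc_coeff, dif_pos h2]
      exact (hγ.2 i hi ⟨l, h2⟩).1 hl
    obtain ⟨u, hu⟩ := h1
    refine ⟨u ^ m i, ?_, ?_⟩
    · rw [hu, mul_pow, ← pow_mul]
    · have h3 : u.coeff 0 = b i := by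
        have h4 : (arc γ i).coeff (a i) = u.coeff 0 := by
          have h5 := Polynomial.coeff_X_pow_mul u (a i) 0
          rw [zero_add] at h5
          rw [hu, h5]
        rw [← h4]
        have h2 : a i < d + 1 := by have := ha i hi; omega
        rw [a1_arc_coeff, dif_pos h2]
        exact (hγ.2 i hi ⟨a i, h2⟩).2 rfl
      rw [Polynomial.coeff_zero_eq_eval_zero, Polynomial.eval_pow,
        ← Polynomial.coeff_zero_eq_eval_zero, h3]

theorem along_DD {d : ℕ} {J : Set (Fin N)} {a : Fin N → ℕ} {b : Fin N → ℂ}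
    {γ : Fin N × Fin (d + 1) → ℂ} (hγ : γ ∈ DD d J a b) (ha : ∀ i, i ∉ J → a i ≤ d)
    (m : Fin N →₀ ℕ) (hm : ∀ i ∈ J, m i = 0) :
    (∀ l < ∑ i, a i * m i, (along (monomial m (1 : ℂ)) γ).coeff l = 0) ∧
      (along (monomial m (1 : ℂ)) γ).coeff (∑ i, a i * m i) = ∏ i, b i ^ m i := by
  choose u hu hb using a3_factor hγ ha m hm
  have h1 : along (monomial m (1 : ℂ)) γ = Polynomial.X ^ (∑ i, a i * m i) * ∏ i, u i := by
    rw [a3_along, Finset.prod_congr rfl fun i _ => hu i, Finset.prod_mul_distrib,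
      Finset.prod_pow_eq_pow_sum]
  refine ⟨fun l hl => ?_, ?_⟩
  · rw [h1, Polynomial.coeff_X_pow_mul', if_neg (not_le.2 hl)]
  · have h5 := Polynomial.coeff_X_pow_mul (∏ i, u i) (∑ i, a i * m i) 0
    rw [zero_add] at h5
    rw [h1, h5, Polynomial.coeff_zero_eq_eval_zero, Polynomial.eval_prod]
    refine Finset.prod_congr rfl fun i _ => ?_
    rw [← Polynomial.coeff_zero_eq_eval_zero, hb i]

/-- the prescribed coordinates -/
private def a3P {N : ℕ} (d : ℕ) (J : Set (Fin N)) (a : Fin N → ℕ) (q : Fin N × Fin (d + 1)) :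
    Prop := q.1 ∈ J ∨ (q.2 : ℕ) ≤ a q.1

open Classical in
/-- the prescribed values -/
private noncomputable def a3v {N : ℕ} (d : ℕ) (J : Set (Fin N)) (a : Fin N → ℕ) (b : Fin N → ℂ)
    (q : Fin N × Fin (d + 1)) : ℂ :=
  if q.1 ∈ J then 0 else if (q.2 : ℕ) < a q.1 then 0 else b q.1

private theorem a3_DD (d : ℕ) (J : Set (Fin N)) (a : Fin N → ℕ) (b : Fin N → ℂ) :
    DD d J a b = {γ | ∀ q, a3P d J a q → γ q = a3v d J a b q} := by
  ext γ
  constructor
  · rintro ⟨h1, h2⟩ ⟨i, l⟩ hq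
    unfold a3v
    by_cases hi : i ∈ J
    · rw [if_pos hi]
      exact h1 i hi l
    · rw [if_neg hi]
      rcases hq with hq | hq
      · exact absurd hq hi
      · by_cases hl : (l : ℕ) < a i
        · rw [if_pos hl]
          exact (h2 i hi l).1 hl
        · rw [if_neg hl]
          have hq' : (l : ℕ) ≤ a i := hq
          exact (h2 i hi l).2 (by omega)
  · intro h
    refine ⟨fun i hi l => ?_, fun i hi l => ⟨fun hl => ?_, fun hl => ?_⟩⟩
    · rw [h (i, l) (Or.inl hi)]
      unfold a3v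
      rw [if_pos hi]
    · rw [h (i, l) (Or.inr hl.le)]
      unfold a3v
      rw [if_neg hi, if_pos hl]
    · rw [h (i, l) (Or.inr hl.le)]
      unfold a3v
      have hl' : ¬ (l : ℕ) < a i := by omega
      rw [if_neg hi, if_neg hl']

theorem constr_DD (d : ℕ) (J : Set (Fin N)) (a : Fin N → ℕ) (b : Fin N → ℂ) :
    Constr (DD d J a b) := by
  rw [a3_DD]
  have h1 : {γ : Fin N × Fin (d + 1) → ℂ | ∀ q, a3P d J a q → γ q = a3v d J a b q} =
      ⋂ q, {γ | a3P d J a q → γ q = a3v d J a b q} := by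
    ext γ
    simp only [Set.mem_iInter, Set.mem_ofPred_eq]
  rw [h1]
  refine constr_iInter fun q => ?_
  by_cases hq : a3P d J a q
  · have h2 : {γ : Fin N × Fin (d + 1) → ℂ | a3P d J a q → γ q = a3v d J a b q} =
        {γ | eval γ (X q) = eval γ (C (a3v d J a b q))} := by
      ext γ
      simp only [Set.mem_ofPred_eq, eval_X, eval_C]
      exact ⟨fun h => h hq, fun h _ => h⟩
    rw [h2]
    exact constr_eq _ _
  · have h2 : {γ : Fin N × Fin (d + 1) → ℂ | a3P d J a q → γ q = a3v d J a b q} = Set.univ := by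
      ext γ
      simp only [Set.mem_ofPred_eq, Set.mem_univ, iff_true]
      exact fun h => absurd h hq
    rw [h2]
    exact constr_univ

/-- the linear space of the directions -/
private def a3W (d : ℕ) (J : Set (Fin N)) (a : Fin N → ℕ) :
    Submodule ℂ (Fin N × Fin (d + 1) → ℂ) where
  carrier := {γ | ∀ q, a3P d J a q → γ q = 0}
  zero_mem' := fun _ _ => rfl
  add_mem' := by
    intro x y hx hy q hq
    rw [Pi.add_apply, hx q hq, hy q hq, add_zero]
  smul_mem' := by
    intro c x hx q hq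
    rw [Pi.smul_apply, hx q hq, smul_zero]

theorem chi_DD {χ : K0 →+* ℤ} (hχ : IsEulerCharF χ) (d : ℕ) (J : Set (Fin N)) (a : Fin N → ℕ)
    (b : Fin N → ℂ) : χ (cls (DD d J a b)) = 1 := by
  have h1 : cls (DD d J a b) = cls (a3W d J a : Set (Fin N × Fin (d + 1) → ℂ)) := by
    refine cls_iso (constr_DD d J a b) (constr_submodule _) ?_
    refine RegIso.linear LinearMap.id LinearMap.id (-(a3v d J a b)) (a3v d J a b) ?_ ?_ ?_ ?_
    · intro x hx
      rw [a3_DD] at hx
      intro q hq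
      show x q + -(a3v d J a b q) = 0
      rw [hx q hq, add_neg_cancel]
    · intro y hy
      rw [a3_DD]
      intro q hq
      show y q + a3v d J a b q = a3v d J a b q
      have h2 : y q = 0 := hy q hq
      rw [h2, zero_add]
    · intro x _
      simp only [LinearMap.id_coe, id_eq]
      rw [neg_add_cancel_right]
    · intro y _
      simp only [LinearMap.id_coe, id_eq]
      rw [add_neg_cancel_right]
  rw [h1, cls_submodule, map_pow, hχ.line, one_pow]

end NW
end MotMono
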