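import Pool.Agent.Lib.MP_4e5fcd_ag.NW.A1
import Pool.Agent.Lib.MP_4e5fcd_ag.NW.A3

/-!
# NW-A4a: contact jets of monomials and their leading coefficients

Note: `Mov m p z i` implies `p i = 0`.
`mem_fix_iff`, `→`: let `γ ∈ CT (mon m) p z d`, `γ (i, ·) = 0` for all `i` with `Mov`. If `z l ≠ 0`, then
`m l i = 0` for `i` with `Mov` (otherwise `along (mon m l) γ = 0`). Let `p i = 0`, `¬ Mov`; then
`γ (i, ·) ≠ 0`: otherwise `m l i = 0` for all `l` with `z l ≠ 0`, and with `n`, `k` from `dich` (NW-A1)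
`n = ∑ l, k l * m l i = 0` (the `l` with `z l = 0` have `k l = 0`). Let `a i` be the least `l` with
`γ (i, l) ≠ 0` and `b i = γ (i, a i)`; `0 < a i ≤ d` as `γ (i, 0) = p i = 0`. For `p i ≠ 0`: `a i = 0`,
`b i = p i`; for `Mov`: `a i = 0`, `b i = 1`. So `γ ∈ DD d {i | Mov m p z i} a b`. The conditions for the
`l` with `z l ≠ 0` from `along_DD` (NW-A3): the lowest coefficient of `along (mon m l) γ` is `∏ b i ^ (m l i) ≠ 0` at
`∑ a i * m l i`, and the coefficients below `d` are `0`, the coefficient `d` is `z l ≠ 0`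
(`TO`, `vec`), so `∑ a i * m l i = d`. For `z l = 0` with `m l i = 0` for all `i` with `Mov`: the
coefficients of level `≤ d` vanish, so `d < ∑ a i * m l i`.
`←`: `along_DD`, `along_DD_zero`; base point: `γ (i, 0) = 0` if `0 < a i` or `Mov`, `= b i = p i` if
`p i ≠ 0`.
`lead_unique`: `a i` is determined as the least level with `γ (i, l) ≠ 0` for the `i` with `¬ Mov`
(`a i ≤ d` and `b i ≠ 0`), `b i = γ (i, a i)`.
-/

open MvPolynomial

namespace MotMono
namespace NW

open CN HY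

variable {N s : ℕ}

private theorem mov_zero {m : Fin s → (Fin N →₀ ℕ)} {p : Fin N → ℂ} {z : Fin s → ℂ} {i : Fin N}
    (h : Mov m p z i) : p i = 0 := by
  obtain ⟨w, hw, hi⟩ := h
  by_contra hp
  exact hi (hw.1 i hp)

/-- every jet has the trivial form of `DD` -/
private theorem mem_DD_triv {d : ℕ} (J : Set (Fin N)) (γ : Fin N × Fin (d + 1) → ℂ)
    (h : ∀ i ∈ J, ∀ l, γ (i, l) = 0) : γ ∈ DD d J (fun _ => 0) (fun i => γ (i, 0)) := by
  refine ⟨h, fun i _ l => ⟨fun hl => absurd hl (Nat.not_lt_zero _), fun hl => ?_⟩⟩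
  have : l = 0 := Fin.ext hl
  rw [this]

private theorem lead_le {m : Fin s → (Fin N →₀ ℕ)} {p : Fin N → ℂ} {z : Fin s → ℂ} {d : ℕ}
    {a : Fin N → ℕ} {b : Fin N → ℂ} (h : Lead m p z d a b) (i : Fin N) (hi : ¬ Mov m p z i) :
    a i ≤ d := by
  by_cases hp : p i = 0
  · exact (h.2.2.2.1 i hp hi).2
  · rw [(h.2.2.1 i hp).1]
    exact Nat.zero_le _

private theorem fix_to {m : Fin s → (Fin N →₀ ℕ)} {p : Fin N → ℂ} {z : Fin s → ℂ} {d : ℕ}
    (hd : 0 < d) {γ : Fin N × Fin (d + 1) → ℂ} (hγ : γ ∈ CT (mon m) p z d)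
    (hz : ∀ i, Mov m p z i → ∀ l, γ (i, l) = 0) :
    ∃ a b, Lead m p z d a b ∧ γ ∈ DD d {i | Mov m p z i} a b := by
  classical
  obtain ⟨hb, hT, hv⟩ := hγ
  have hb' : ∀ i, γ (i, 0) = p i := fun i => congrFun hb i
  have hv' : ∀ l, (along (mon m l) γ).coeff d = z l := fun l => congrFun hv l
  -- a monomial with non-zero leading coefficient contains no vanishing coordinate
  have hnz : ∀ l, z l ≠ 0 → ∀ i, (∀ j, γ (i, j) = 0) → m l i = 0 := by
    intro l hl i hi
    by_contra hm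
    apply hl
    rw [← hv' l]
    have h1 := along_DD_zero (mem_DD_triv {i} γ (by
      intro i' hi'
      rw [Set.mem_singleton_iff] at hi'
      rw [hi']
      exact hi)) (m l) ⟨i, Set.mem_singleton i, hm⟩
    unfold mon
    rw [h1, Polynomial.coeff_zero]
  have hex : ∀ i, ¬ Mov m p z i → ∃ l : ℕ, ∃ h : l < d + 1, γ (i, ⟨l, h⟩) ≠ 0 := by
    intro i hi
    by_cases hp : p i = 0
    · by_contra hcon
      push Not at hcon
      obtain ⟨n, k, hn, hk, hsum⟩ := dich m p z i hp hi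
      have h1 := hsum i hp
      rw [if_pos rfl] at h1
      have h2 : ∑ l, k l * (m l i : ℤ) = 0 := by
        refine Finset.sum_eq_zero fun l _ => ?_
        by_cases hl : z l = 0
        · rw [hk l hl, zero_mul]
        · rw [hnz l hl i fun j => hcon j j.2]
          simp
      rw [h2] at h1
      have h3 : n = 0 := by exact_mod_cast h1.symm
      omega
    · refine ⟨0, Nat.succ_pos d, ?_⟩
      have h1 : (⟨0, Nat.succ_pos d⟩ : Fin (d + 1)) = 0 := rfl
      rw [h1, hb' i]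
      exact hp
  have hab : ∀ i, ∃ (a : ℕ) (b : ℂ), b ≠ 0 ∧ (Mov m p z i → a = 0 ∧ b = 1) ∧
      (p i ≠ 0 → a = 0 ∧ b = p i) ∧ (p i = 0 → ¬ Mov m p z i → 0 < a ∧ a ≤ d) ∧
      (¬ Mov m p z i → ∀ l : Fin (d + 1), ((l : ℕ) < a → γ (i, l) = 0) ∧
        ((l : ℕ) = a → γ (i, l) = b)) := by
    intro i
    by_cases hi : Mov m p z i
    · exact ⟨0, 1, one_ne_zero, fun _ => ⟨rfl, rfl⟩, fun hp => absurd (mov_zero hi) hp,
        fun _ h => absurd hi h, fun h => absurd hi h⟩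
    · have he := hex i hi
      obtain ⟨hlt, hne⟩ := Nat.find_spec he
      have hmin : ∀ l : Fin (d + 1), (l : ℕ) < Nat.find he → γ (i, l) = 0 := by
        intro l hl
        by_contra hcon
        exact Nat.find_min he hl ⟨l.2, hcon⟩
      refine ⟨Nat.find he, γ (i, ⟨Nat.find he, hlt⟩), hne, fun h => absurd h hi, ?_, ?_, ?_⟩
      · intro hp
        have h0 : Nat.find he = 0 := by
          by_contra hcon
          have h1 := hmin 0 (Nat.pos_of_ne_zero hcon)
          rw [hb' i] at h1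
          exact hp h1
        refine ⟨h0, ?_⟩
        have h1 : (⟨Nat.find he, hlt⟩ : Fin (d + 1)) = 0 := Fin.ext h0
        rw [h1, hb' i]
      · intro hp _
        refine ⟨?_, by omega⟩
        rcases Nat.eq_zero_or_pos (Nat.find he) with h0 | h0
        · exfalso
          apply hne
          have h1 : (⟨Nat.find he, hlt⟩ : Fin (d + 1)) = 0 := Fin.ext h0
          rw [h1, hb' i, hp]
        · exact h0
      · intro _ l
        refine ⟨hmin l, fun hl => ?_⟩
        have h1 : l = ⟨Nat.find he, hlt⟩ := Fin.ext hl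
        rw [← h1]
  choose a b h1 h2 h3 h4 h5 using hab
  have hDD : γ ∈ DD d {i | Mov m p z i} a b := ⟨fun i hi l => hz i hi l, fun i hi l => h5 i hi l⟩
  have hale : ∀ i, i ∉ {i | Mov m p z i} → a i ≤ d := by
    intro i hi
    by_cases hp : p i = 0
    · exact (h4 i hp hi).2
    · rw [(h3 i hp).1]
      exact Nat.zero_le _
  have hprod : ∀ l, ∏ i, b i ^ m l i ≠ 0 := fun l =>
    Finset.prod_ne_zero_iff.2 fun i _ => pow_ne_zero _ (h1 i)
  refine ⟨a, b, ⟨h1, h2, h3, h4, ?_, ?_⟩, hDD⟩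
  · intro l hl
    have hm : ∀ i, Mov m p z i → m l i = 0 := fun i hi => hnz l hl i (hz i hi)
    obtain ⟨g1, g2⟩ := along_DD hDD hale (m l) hm
    have g3 : (along (monomial (m l) (1 : ℂ)) γ).coeff d = z l := hv' l
    have g4 : ∀ j < d, (along (monomial (m l) (1 : ℂ)) γ).coeff j = 0 := hT l
    have hS : ∑ i, a i * m l i = d := by
      rcases Nat.lt_trichotomy (∑ i, a i * m l i) d with h | h | h
      · exact absurd (g2.symm.trans (g4 _ h)) (hprod l)
      · exact h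
      · exact absurd (g3.symm.trans (g1 _ h)) hl
    refine ⟨hm, hS, ?_⟩
    rw [hS] at g2
    exact g2.symm.trans g3
  · intro l hl
    by_cases hm : ∃ i, Mov m p z i ∧ m l i ≠ 0
    · exact Or.inl hm
    · right
      push Not at hm
      obtain ⟨-, g2⟩ := along_DD hDD hale (m l) hm
      have g3 : (along (monomial (m l) (1 : ℂ)) γ).coeff d = z l := hv' l
      have g4 : ∀ j < d, (along (monomial (m l) (1 : ℂ)) γ).coeff j = 0 := hT l
      by_contra hcon
      rcases Nat.lt_or_ge (∑ i, a i * m l i) d with h | h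
      · exact hprod l (g2.symm.trans (g4 _ h))
      · have h6 : ∑ i, a i * m l i = d := by omega
        rw [h6] at g2
        exact hprod l ((g2.symm.trans g3).trans hl)

private theorem fix_of {m : Fin s → (Fin N →₀ ℕ)} {p : Fin N → ℂ} {z : Fin s → ℂ} {d : ℕ}
    {γ : Fin N × Fin (d + 1) → ℂ} {a : Fin N → ℕ} {b : Fin N → ℂ}
    (h : Lead m p z d a b) (hγ : γ ∈ DD d {i | Mov m p z i} a b) :
    γ ∈ CT (mon m) p z d ∧ ∀ i, Mov m p z i → ∀ l, γ (i, l) = 0 := by
  have hale : ∀ i, i ∉ {i | Mov m p z i} → a i ≤ d := fun i hi => lead_le h i hi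
  have hlev : ∀ l, (∀ j < d, (along (monomial (m l) (1 : ℂ)) γ).coeff j = 0) ∧
      (along (monomial (m l) (1 : ℂ)) γ).coeff d = z l := by
    intro l
    by_cases hl : z l = 0
    · by_cases hm : ∃ i ∈ {i | Mov m p z i}, m l i ≠ 0
      · have h1 := along_DD_zero hγ (m l) hm
        rw [h1]
        exact ⟨fun j _ => Polynomial.coeff_zero j, by rw [Polynomial.coeff_zero, hl]⟩
      · push Not at hm
        obtain ⟨g1, -⟩ := along_DD hγ hale (m l) hm
        have h2 : d < ∑ i, a i * m l i := by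
          rcases h.2.2.2.2.2 l hl with ⟨i, hi, hi'⟩ | h2
          · exact absurd (hm i hi) hi'
          · exact h2
        exact ⟨fun j hj => g1 j (hj.trans h2), by rw [g1 d h2, hl]⟩
    · obtain ⟨hm, hS, hp⟩ := h.2.2.2.2.1 l hl
      obtain ⟨g1, g2⟩ := along_DD hγ hale (m l) hm
      rw [hS] at g1 g2
      exact ⟨g1, g2.trans hp⟩
  refine ⟨⟨?_, fun l j hj => (hlev l).1 j hj, funext fun l => (hlev l).2⟩, fun i hi l => hγ.1 i hi l⟩
  funext i
  show γ (i, 0) = p i
  by_cases hi : Mov m p z i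
  · rw [hγ.1 i hi 0, mov_zero hi]
  · by_cases hp : p i = 0
    · rw [hp]
      exact (hγ.2 i hi 0).1 (h.2.2.2.1 i hp hi).1
    · obtain ⟨h1, h2⟩ := h.2.2.1 i hp
      rw [← h2]
      exact (hγ.2 i hi 0).2 h1.symm

theorem mem_fix_iff (m : Fin s → (Fin N →₀ ℕ)) (p : Fin N → ℂ) (z : Fin s → ℂ) {d : ℕ}
    (hd : 0 < d) (γ : Fin N × Fin (d + 1) → ℂ) :
    (γ ∈ CT (mon m) p z d ∧ ∀ i, Mov m p z i → ∀ l, γ (i, l) = 0) ↔
      ∃ a b, Lead m p z d a b ∧ γ ∈ DD d {i | Mov m p z i} a b := by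
  constructor
  · rintro ⟨h1, h2⟩
    exact fix_to hd h1 h2
  · rintro ⟨a, b, h1, h2⟩
    exact fix_of h1 h2

private theorem uniq_le {m : Fin s → (Fin N →₀ ℕ)} {p : Fin N → ℂ} {z : Fin s → ℂ} {d : ℕ}
    {γ : Fin N × Fin (d + 1) → ℂ} {a a' : Fin N → ℕ} {b b' : Fin N → ℂ}
    (h : Lead m p z d a b) (hγ : γ ∈ DD d {i | Mov m p z i} a b)
    (hγ' : γ ∈ DD d {i | Mov m p z i} a' b') (i : Fin N) (hi : ¬ Mov m p z i) : a' i ≤ a i := by
  by_contra hcon
  have hle := lead_le h i hi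
  have h1 := (hγ.2 i hi ⟨a i, by omega⟩).2 rfl
  have h2 := (hγ'.2 i hi ⟨a i, by omega⟩).1 (by simpa using hcon)
  exact h.1 i (h1.symm.trans h2)

theorem lead_unique (m : Fin s → (Fin N →₀ ℕ)) (p : Fin N → ℂ) (z : Fin s → ℂ) {d : ℕ}
    {γ : Fin N × Fin (d + 1) → ℂ} {a a' : Fin N → ℕ} {b b' : Fin N → ℂ}
    (h : Lead m p z d a b) (hγ : γ ∈ DD d {i | Mov m p z i} a b)
    (h' : Lead m p z d a' b') (hγ' : γ ∈ DD d {i | Mov m p z i} a' b') : a = a' ∧ b = b' := by
  have key : ∀ i, a i = a' i ∧ b i = b' i := by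
    intro i
    by_cases hi : Mov m p z i
    · obtain ⟨h1, h2⟩ := h.2.1 i hi
      obtain ⟨h3, h4⟩ := h'.2.1 i hi
      exact ⟨h1.trans h3.symm, h2.trans h4.symm⟩
    · have h1 : a i = a' i := le_antisymm (uniq_le h' hγ' hγ i hi) (uniq_le h hγ hγ' i hi)
      refine ⟨h1, ?_⟩
      have hle := lead_le h i hi
      have h2 := (hγ.2 i hi ⟨a i, by omega⟩).2 rfl
      have h3 := (hγ'.2 i hi ⟨a i, by omega⟩).2 h1
      exact h2.symm.trans h3
  exact ⟨funext fun i => (key i).1, funext fun i => (key i).2⟩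

end NW
end MotMono
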