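import Pool.Agent.Lib.MP_4e5fcd_ag.NW.A1

/-!
# NW-A4b: the orders and leading coefficients

`lead_scale`: direct (`∑ a' i * m l i * d = ∑ a i * m l i * d'`; cancel `d > 0`).
`lead_orders`: for `i` with `p i = 0`, `¬ Mov` let `n_i > 0`, `k_i` be from `dich` (NW-A1). Then for every
`Lead m p z d a b`: `n_i * a i = (∑ l, k_i l) * d`: `∑_l k_i l * (∑_j a j * m l j) = (∑_l k_i l) * d` (for
`z l ≠ 0` the inner sum is `d`, for `z l = 0` is `k_i l = 0`), and the left side is
`∑_j a j * (∑_l k_i l * m l j) = a i * n_i` (for `p j ≠ 0` is `a j = 0`; for `p j = 0` the inner sum is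
`n_i` if `j = i` and `0` otherwise). Put `n i = 1`, `κ i = 0` for the other `i`.
`lead_finite`: `b i` is `p i` or `1` unless `p i = 0`, `¬ Mov`; then `b i ^ (n_i)` is the same number for
all `Lead m p z d a b`: `∏_l (∏_j b j ^ (m l j)) ^ (k_i l) = ∏_l (z l) ^ (k_i l)` (zpow; `k_i l = 0` for
`z l = 0`), the left side is `∏_j b j ^ (∑_l k_i l * m l j) = b i ^ n_i * ∏_{p j ≠ 0} p j ^ (…)`
(for `j ≠ i`, `p j = 0`: the exponent is `0`).
So all the `b` lie in a finite set (product of the sets of roots of `X ^ n_i - c_i`,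
`Set.Finite.pi`).
-/

open MvPolynomial

namespace MotMono
namespace NW

open CN HY

variable {N s : ℕ}

theorem lead_scale (m : Fin s → (Fin N →₀ ℕ)) (p : Fin N → ℂ) (z : Fin s → ℂ) {d d' : ℕ}
    (hd : 0 < d) (hd' : 0 < d') {a a' : Fin N → ℕ} {b : Fin N → ℂ} (h : Lead m p z d a b)
    (ha : ∀ i, a' i * d = a i * d') : Lead m p z d' a' b := by
  obtain ⟨h1, h2, h3, h4, h5, h6⟩ := h
  have hz : ∀ i, a i = 0 → a' i = 0 := by
    intro i hi
    have := ha i
    rw [hi, Nat.zero_mul] at this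
    rcases Nat.mul_eq_zero.1 this with h | h
    · exact h
    · omega
  have hsum : ∀ l, (∑ i, a' i * m l i) * d = (∑ i, a i * m l i) * d' := by
    intro l
    rw [Finset.sum_mul, Finset.sum_mul]
    refine Finset.sum_congr rfl fun i _ => ?_
    calc a' i * m l i * d = (a' i * d) * m l i := by ring
      _ = (a i * d') * m l i := by rw [ha i]
      _ = a i * m l i * d' := by ring
  refine ⟨h1, fun i hi => ⟨hz i (h2 i hi).1, (h2 i hi).2⟩, fun i hi => ⟨hz i (h3 i hi).1, (h3 i hi).2⟩,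
    ?_, ?_, ?_⟩
  · intro i hi hm
    obtain ⟨g1, g2⟩ := h4 i hi hm
    have h7 := ha i
    constructor
    · rcases Nat.eq_zero_or_pos (a' i) with h8 | h8
      · rw [h8, Nat.zero_mul] at h7
        have : 0 < a i * d' := Nat.mul_pos g1 hd'
        omega
      · exact h8
    · have h8 : a' i * d ≤ d' * d := by
        rw [h7, Nat.mul_comm d' d]
        exact Nat.mul_le_mul_right _ g2
      exact Nat.le_of_mul_le_mul_right h8 hd
  · intro l hl
    obtain ⟨g1, g2, g3⟩ := h5 l hl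
    refine ⟨g1, ?_, g3⟩
    have h7 := hsum l
    rw [g2, Nat.mul_comm d d'] at h7
    exact Nat.eq_of_mul_eq_mul_right hd h7
  · intro l hl
    rcases h6 l hl with g | g
    · exact Or.inl g
    · right
      have h7 := hsum l
      have h8 : d' * d < (∑ i, a' i * m l i) * d := by
        rw [h7, Nat.mul_comm d' d]
        exact Nat.mul_lt_mul_of_pos_right g hd'
      exact Nat.lt_of_mul_lt_mul_right h8

private theorem A4b_order (m : Fin s → (Fin N →₀ ℕ)) (p : Fin N → ℂ) (z : Fin s → ℂ) (i : Fin N)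
    {n : ℕ} {k : Fin s → ℤ} (hk : ∀ l, z l = 0 → k l = 0)
    (hn : ∀ i', p i' = 0 → ∑ l, k l * (m l i' : ℤ) = if i' = i then (n : ℤ) else 0)
    {d : ℕ} {a : Fin N → ℕ} {b : Fin N → ℂ} (h : Lead m p z d a b) (hi : p i = 0) :
    (n : ℤ) * a i = (∑ l, k l) * d := by
  obtain ⟨-, -, h3, -, h5, -⟩ := h
  have e1 : ∑ l, k l * (∑ j, (a j : ℤ) * (m l j : ℤ)) = (∑ l, k l) * d := by
    rw [Finset.sum_mul]
    refine Finset.sum_congr rfl fun l _ => ?_
    by_cases hz : z l = 0
    · rw [hk l hz, zero_mul, zero_mul]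
    · have := (h5 l hz).2.1
      rw [← this]
      push_cast
      rfl
  have e2 : ∑ l, k l * (∑ j, (a j : ℤ) * (m l j : ℤ)) =
      ∑ j, (a j : ℤ) * ∑ l, k l * (m l j : ℤ) := by
    simp_rw [Finset.mul_sum]
    rw [Finset.sum_comm]
    refine Finset.sum_congr rfl fun j _ => Finset.sum_congr rfl fun l _ => ?_
    ring
  have e3 : ∀ j, (a j : ℤ) * ∑ l, k l * (m l j : ℤ) = if j = i then (a i : ℤ) * n else 0 := by
    intro j
    by_cases hp : p j = 0
    · rw [hn j hp]
      by_cases hj : j = i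
      · rw [if_pos hj, if_pos hj, hj]
      · rw [if_neg hj, if_neg hj, mul_zero]
    · have hj : j ≠ i := by
        rintro rfl
        exact hp hi
      rw [(h3 j hp).1, if_neg hj]
      simp
  rw [← e1, e2, Finset.sum_congr rfl fun j _ => e3 j, Finset.sum_ite_eq' Finset.univ i,
    if_pos (Finset.mem_univ i)]
  ring

theorem lead_orders (m : Fin s → (Fin N →₀ ℕ)) (p : Fin N → ℂ) (z : Fin s → ℂ) :
    ∃ (n : Fin N → ℕ) (κ : Fin N → ℤ), (∀ i, 0 < n i) ∧ ∀ d a b, Lead m p z d a b →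
      ∀ i, (n i : ℤ) * a i = κ i * d := by
  have key : ∀ i, ∃ (n : ℕ) (κ : ℤ), 0 < n ∧ ∀ d a b, Lead m p z d a b →
      (n : ℤ) * a i = κ * d := by
    intro i
    by_cases hp : p i = 0
    · by_cases hm : Mov m p z i
      · refine ⟨1, 0, one_pos, ?_⟩
        intro d a b h
        rw [(h.2.1 i hm).1]
        simp
      · obtain ⟨n, k, hn0, hk, hn⟩ := dich m p z i hp hm
        exact ⟨n, ∑ l, k l, hn0, fun d a b h => A4b_order m p z i hk hn h hp⟩
    · refine ⟨1, 0, one_pos, ?_⟩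
      intro d a b h
      rw [(h.2.2.1 i hp).1]
      simp
  choose n κ h1 h2 using key
  exact ⟨n, κ, h1, fun d a b h i => h2 i d a b h⟩

private theorem A4b_pow (m : Fin s → (Fin N →₀ ℕ)) (p : Fin N → ℂ) (z : Fin s → ℂ) (i : Fin N)
    {n : ℕ} {k : Fin s → ℤ} (hk : ∀ l, z l = 0 → k l = 0)
    (hn : ∀ i', p i' = 0 → ∑ l, k l * (m l i' : ℤ) = if i' = i then (n : ℤ) else 0)
    {d : ℕ} {a : Fin N → ℕ} {b : Fin N → ℂ} (h : Lead m p z d a b) (hi : p i = 0) :
    b i ^ n * ∏ j, (if p j = 0 then (1 : ℂ) else p j ^ (∑ l, k l * (m l j : ℤ))) =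
      ∏ l, z l ^ k l := by
  obtain ⟨h1, -, h3, -, h5, -⟩ := h
  have e1 : ∏ l, (∏ j, b j ^ (m l j)) ^ k l = ∏ l, z l ^ k l := by
    refine Finset.prod_congr rfl fun l _ => ?_
    by_cases hz : z l = 0
    · rw [hk l hz, zpow_zero, zpow_zero]
    · rw [(h5 l hz).2.2]
  have e2 : ∏ l, (∏ j, b j ^ (m l j)) ^ k l = ∏ j, b j ^ (∑ l, k l * (m l j : ℤ)) := by
    have : ∀ l, (∏ j, b j ^ (m l j)) ^ k l = ∏ j, b j ^ (k l * (m l j : ℤ)) := by
      intro l
      rw [← Finset.prod_zpow]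
      refine Finset.prod_congr rfl fun j _ => ?_
      rw [← zpow_natCast, ← zpow_mul, mul_comm]
    rw [Finset.prod_congr rfl fun l _ => this l, Finset.prod_comm]
    refine Finset.prod_congr rfl fun j _ => ?_
    have hb : b j ≠ 0 := h1 j
    induction (Finset.univ : Finset (Fin s)) using Finset.induction_on with
    | empty => simp
    | insert l S hl ih =>
      rw [Finset.prod_insert hl, Finset.sum_insert hl, zpow_add₀ hb, ih]
  have e3 : ∀ j, b j ^ (∑ l, k l * (m l j : ℤ)) = (if j = i then b i ^ n else 1) *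
      (if p j = 0 then (1 : ℂ) else p j ^ (∑ l, k l * (m l j : ℤ))) := by
    intro j
    by_cases hp : p j = 0
    · rw [hn j hp, if_pos hp, mul_one]
      by_cases hj : j = i
      · rw [if_pos hj, if_pos hj, zpow_natCast, hj]
      · rw [if_neg hj, if_neg hj, zpow_zero]
    · have hj : j ≠ i := by
        rintro rfl
        exact hp hi
      rw [if_neg hj, if_neg hp, one_mul, (h3 j hp).2]
  rw [← e1, e2, Finset.prod_congr rfl fun j _ => e3 j, Finset.prod_mul_distrib,
    Finset.prod_ite_eq' Finset.univ i, if_pos (Finset.mem_univ i)]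

private theorem A4b_roots (n : ℕ) (hn : 0 < n) (w c : ℂ) (hw : w ≠ 0) :
    {x : ℂ | x ^ n * w = c}.Finite := by
  classical
  refine Set.Finite.subset (Finset.finite_toSet (Polynomial.nthRoots n (c / w)).toFinset) ?_
  intro x hx
  rw [Set.mem_ofPred_eq] at hx
  rw [Finset.mem_coe, Multiset.mem_toFinset, Polynomial.mem_nthRoots hn, ← hx]
  field_simp

theorem lead_finite (m : Fin s → (Fin N →₀ ℕ)) (p : Fin N → ℂ) (z : Fin s → ℂ) :
    {b : Fin N → ℂ | ∃ d a, Lead m p z d a b}.Finite := by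
  have key : ∀ i, ∃ A : Set ℂ, A.Finite ∧ ∀ d a b, Lead m p z d a b → b i ∈ A := by
    intro i
    by_cases hp : p i = 0
    · by_cases hm : Mov m p z i
      · refine ⟨{1}, Set.finite_singleton _, ?_⟩
        intro d a b h
        exact (h.2.1 i hm).2
      · obtain ⟨n, k, hn0, hk, hn⟩ := dich m p z i hp hm
        refine ⟨{x : ℂ | x ^ n * (∏ j, (if p j = 0 then (1 : ℂ) else
          p j ^ (∑ l, k l * (m l j : ℤ)))) = ∏ l, z l ^ k l}, A4b_roots n hn0 _ _ ?_, ?_⟩
        · refine Finset.prod_ne_zero_iff.2 fun j _ => ?_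
          by_cases hj : p j = 0
          · rw [if_pos hj]
            exact one_ne_zero
          · rw [if_neg hj]
            exact zpow_ne_zero _ hj
        · intro d a b h
          exact A4b_pow m p z i hk hn h hp
    · refine ⟨{p i}, Set.finite_singleton _, ?_⟩
      intro d a b h
      exact (h.2.2.1 i hp).2
  choose A h1 h2 using key
  refine Set.Finite.subset (Set.Finite.pi' h1) ?_
  rintro b ⟨d, a, h⟩ i
  exact h2 i d a b h

end NW
end MotMono
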