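import Pool.Agent.Lib.MP_4e5fcd_ag.HZ.Defs

/-!
# Ideals with monomial integral closure, quadratic stabilisation: definitions of the statement

* `IntOver I f`: `f` is integral over the ideal `I`;
* `MonClosure I`: near the origin the integral closure of `I` is generated by monomials;
* `quadStab F`: the polynomial `F + u v`, `u`, `v` new variables;
* `ClassU χ s₀ I`, `ClassUg χ s₀ I`: the classes `T(s₀)`, `T'(s₀)` of ideals.
-/

open MvPolynomial

namespace MotMono

/-- `f` is integral over the ideal `I`: `f ^ n + a₁ f ^ (n - 1) + … + a_n = 0` with `a_i ∈ I ^ i`. -/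
def IntOver {N : ℕ} (I : Ideal (MvPolynomial (Fin N) ℂ)) (f : MvPolynomial (Fin N) ℂ) : Prop :=
  ∃ (n : ℕ) (a : ℕ → MvPolynomial (Fin N) ℂ), 0 < n ∧ (∀ i, a i ∈ I ^ i) ∧
    f ^ n + ∑ i ∈ Finset.Icc 1 n, a i * f ^ (n - i) = 0

/-- Near the origin the integral closure of `I` is monomial and not the unit ideal: there are
non-constant monomials `x ^ (m l)`, generating an ideal `M`, and a polynomial `h` with `h (0) ≠ 0`,
such that `h I ⊆ M` and the `h x ^ (m l)` are integral over `I`. -/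
def MonClosure {N : ℕ} (I : Ideal (MvPolynomial (Fin N) ℂ)) : Prop :=
  ∃ (s : ℕ) (m : Fin s → (Fin N →₀ ℕ)) (h : MvPolynomial (Fin N) ℂ), 0 < s ∧ (∀ l, m l ≠ 0) ∧
    eval 0 h ≠ 0 ∧ (∀ f ∈ I, h * f ∈ Ideal.span (Set.range fun l => monomial (m l) (1 : ℂ))) ∧
    ∀ l, IntOver I (h * monomial (m l) 1)

/-- The polynomial `F + u v`, `u` and `v` two new variables. -/
noncomputable def quadStab {N : ℕ} (F : MvPolynomial (Fin N) ℂ) : MvPolynomial (Fin (N + 2)) ℂ :=
  rename (Fin.castAdd 2) F + X (Fin.natAdd N 0) * X (Fin.natAdd N 1)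

/-- The class `T(s₀)`, the least class of ideals of polynomial rings with:
* `two`: non-zero ideals in two variables, with `0` in the zero set;
* `lin`: non-zero ideals generated by products of linear forms (up to factors which do not vanish
  at the origin), with `0` in the zero set;
* `newton`: ideals whose integral closure near the origin is monomial;
* `three`: ideals generated by a set `F` of forms of one degree `d > 0` in three variables, not all
  zero; if `s₀ = -3/d` then `s₀` has to be an integer, or the complement of `V(F)` in the projective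
  plane has to have a non-zero Euler characteristic, or `F` has to contain three algebraically
  independent elements;
* `pull`: ideals which near the origin are pull-backs of ideals of `T(s₀)` under étale coordinates;
* `cone`: ideals generated by a set `F` of forms of one degree `d > 0` in `N + 1` variables, not all
  zero, such that for every `i` the germs of the ideal of the `f (x_i = 1)`, `f ∈ F`, at its zeros are
  in `T(s₀)`; if `s₀ = -(N + 1)/d` then one of the following has to hold: `s₀` is an integer; the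
  complement of `V(F)` in `P^N` has a non-zero Euler characteristic; some fibre
  `{f = y_f for all f ∈ F}`, `y ≠ 0`, has a non-zero Euler characteristic; `F` contains `N + 1`
  algebraically independent elements; `exp (2 π i s₀)` is a zero or pole of the monodromy zeta
  function at a point, off the zero section, of the normal cone over some `p ≠ 0`;
* `adj`: `(I, z)`, `z` a new variable, if `I` is in `T(s₀ + 1)`;
* `pow`: `I ^ k`, `k > 0`, if `I` is in `T(k s₀)`;
* `box`: products in disjoint sets of variables of two ideals of `T(s₀)`. -/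
inductive ClassU (χ : K0 →+* ℤ) : ℚ → {N : ℕ} → Ideal (MvPolynomial (Fin N) ℂ) → Prop
  | two (s₀ : ℚ) (G : Ideal (MvPolynomial (Fin 2) ℂ)) (hG : G ≠ ⊥) (h0 : ∀ f ∈ G, eval 0 f = 0) :
      ClassU χ s₀ G
  | lin (s₀ : ℚ) {N : ℕ} (P : Set (MvPolynomial (Fin N) ℂ)) (hP : ∀ f ∈ P, IsProdLin f)
      (h0 : ∃ f ∈ P, f ≠ 0) (h1 : ∀ f ∈ P, eval 0 f = 0) : ClassU χ s₀ (Ideal.span P)
  | newton (s₀ : ℚ) {N : ℕ} (I : Ideal (MvPolynomial (Fin N) ℂ)) (h : MonClosure I) :
      ClassU χ s₀ I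
  | three (s₀ : ℚ) (F : Set (MvPolynomial (Fin 3) ℂ)) (d : ℕ) (hd : 0 < d)
      (hF : ∀ f ∈ F, f.IsHomogeneous d) (h0 : ∃ f ∈ F, f ≠ 0)
      (hs : s₀ = -3 / d → (∃ z : ℤ, s₀ = z) ∨ χ (cls (projCompl F)) ≠ 0 ∨
        ∃ g : Fin 3 → MvPolynomial (Fin 3) ℂ, (∀ i, g i ∈ F) ∧ AlgebraicIndependent ℂ g) :
      ClassU χ s₀ (Ideal.span F)
  | pull (s₀ : ℚ) {N k : ℕ} (I : Ideal (MvPolynomial (Fin N) ℂ))
      (G : Ideal (MvPolynomial (Fin k) ℂ)) (h : LocPull I 0 G) (hG : ClassU χ s₀ G) :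
      ClassU χ s₀ I
  | cone (s₀ : ℚ) {N : ℕ} (F : Set (MvPolynomial (Fin (N + 1)) ℂ)) (d : ℕ) (hd : 0 < d)
      (hF : ∀ f ∈ F, f.IsHomogeneous d) (h0 : ∃ f ∈ F, f ≠ 0)
      (hloc : ∀ (i : Fin (N + 1)) (b : Fin N → ℂ), (∀ f ∈ F, eval b (dh i f) = 0) →
        ClassU χ s₀ (germ (Ideal.span (dh i '' F)) b))
      (hs : s₀ = -((N + 1 : ℕ) : ℚ) / d →
        (∃ z : ℤ, s₀ = z) ∨
        χ (cls (projCompl F)) ≠ 0 ∨
        (∃ y : MvPolynomial (Fin (N + 1)) ℂ → ℂ, (∃ f ∈ F, y f ≠ 0) ∧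
          χ (cls {x | ∀ f ∈ F, eval x f = y f}) ≠ 0) ∨
        (∃ g : Fin (N + 1) → MvPolynomial (Fin (N + 1)) ℂ,
          (∀ i, g i ∈ F) ∧ AlgebraicIndependent ℂ g) ∨
        ∃ p : Fin (N + 1) → ℂ, p ≠ 0 ∧ ∃ y : ConePoint (Ideal.span F) p, y.Nonzero ∧
          ∃ Z, IsZeta (fun m => χ (cls (contactArcs (Ideal.span F) p y m))) Z ∧
            ZeroOrPole Z (Complex.exp (2 * Real.pi * Complex.I * s₀))) :
      ClassU χ s₀ (Ideal.span F)
  | adj (s₀ : ℚ) {N : ℕ} (I : Ideal (MvPolynomial (Fin N) ℂ)) (h : ClassU χ (s₀ + 1) I) :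
      ClassU χ s₀ (adjVar I)
  | pow (s₀ : ℚ) {N : ℕ} (I : Ideal (MvPolynomial (Fin N) ℂ)) (k : ℕ) (hk : 0 < k)
      (h : ClassU χ (k * s₀) I) : ClassU χ s₀ (I ^ k)
  | box (s₀ : ℚ) {N M : ℕ} (I : Ideal (MvPolynomial (Fin N) ℂ))
      (J : Ideal (MvPolynomial (Fin M) ℂ)) (hI : ClassU χ s₀ I) (hJ : ClassU χ s₀ J) :
      ClassU χ s₀ (boxProd I J)

/-- The class `T'(s₀)`, the least class of ideals of polynomial rings which contains `T(s₀)`, has the
properties `pull`, `adj`, `pow`, `box` of the class `T(s₀)`, and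
* `gen`: the ideal generated by `s > 0` generic linear combinations `∑ j, Y_ij f_j` of a system
  `f_1, …, f_r` of generators of an ideal of `T'(s₀)`, the coefficients `Y_ij` being new variables
  (for `s = 1` this is the hypersurface `∑ j, y_j f_j = 0`);
* `stab`: the hypersurface `F + u v = 0`, `u` and `v` new variables, if the hypersurface `F = 0` is
  in `T'(s₀ + 1)`. -/
inductive ClassUg (χ : K0 →+* ℤ) : ℚ → {N : ℕ} → Ideal (MvPolynomial (Fin N) ℂ) → Prop
  | base (s₀ : ℚ) {N : ℕ} (I : Ideal (MvPolynomial (Fin N) ℂ)) (h : ClassU χ s₀ I) :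
      ClassUg χ s₀ I
  | gen (s₀ : ℚ) {N r : ℕ} (f : Fin r → MvPolynomial (Fin N) ℂ) (s : ℕ) (hs : 0 < s)
      (h : ClassUg χ s₀ (Ideal.span (Set.range f))) : ClassUg χ s₀ (linGen f s)
  | stab (s₀ : ℚ) {N : ℕ} (F : MvPolynomial (Fin N) ℂ) (h : ClassUg χ (s₀ + 1) (Ideal.span {F})) :
      ClassUg χ s₀ (Ideal.span {quadStab F})
  | pull (s₀ : ℚ) {N k : ℕ} (I : Ideal (MvPolynomial (Fin N) ℂ))
      (G : Ideal (MvPolynomial (Fin k) ℂ)) (h : LocPull I 0 G) (hG : ClassUg χ s₀ G) :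
      ClassUg χ s₀ I
  | adj (s₀ : ℚ) {N : ℕ} (I : Ideal (MvPolynomial (Fin N) ℂ)) (h : ClassUg χ (s₀ + 1) I) :
      ClassUg χ s₀ (adjVar I)
  | pow (s₀ : ℚ) {N : ℕ} (I : Ideal (MvPolynomial (Fin N) ℂ)) (k : ℕ) (hk : 0 < k)
      (h : ClassUg χ (k * s₀) I) : ClassUg χ s₀ (I ^ k)
  | box (s₀ : ℚ) {N M : ℕ} (I : Ideal (MvPolynomial (Fin N) ℂ))
      (J : Ideal (MvPolynomial (Fin M) ℂ)) (hI : ClassUg χ s₀ I) (hJ : ClassUg χ s₀ J) :
      ClassUg χ s₀ (boxProd I J)

end MotMono
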