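import Pool.Agent.Lib.MP_4e5fcd_ag.NW.Base
import Mathlib.LinearAlgebra.Dual.Lemmas

/-!
# NW-A1: linear algebra of the exponents

Proof. Let `V = ({i // p i = 0} → ℚ)`, `U ⊆ V` the span of the vectors `(m l i)_i`, `z l ≠ 0`, and
`e_i` the unit vector. If `e_i ∉ U` there is a linear functional `φ` on `V` with `φ = 0` on `U` and
`φ (e_i) ≠ 0`; multiply the rational numbers `φ (e_j)` by a common denominator to get integer
weights `w j` (`p j = 0`), `w j = 0` for `p j ≠ 0`; `Wt m p z w` and `w i ≠ 0`, i.e. `Mov`. So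
`e_i ∈ U`: `e_i = ∑ l, c_l (m l ·)` with rational `c_l`, `c_l = 0` if `z l = 0`; multiply by a common
denominator `n > 0`.
-/

open MvPolynomial

namespace MotMono
namespace NW

variable {N s : ℕ}

/-- a common denominator -/
private theorem comden {ι : Type} [Fintype ι] (c : ι → ℚ) :
    ∃ (D : ℕ) (k : ι → ℤ), 0 < D ∧ ∀ i, (k i : ℚ) = c i * D := by
  classical
  have h0 : ∀ i, ∃ k : ℤ, (k : ℚ) = c i * ((∏ j, (c j).den : ℕ) : ℚ) := by
    intro i
    obtain ⟨e, he⟩ : (c i).den ∣ ∏ j, (c j).den := Finset.dvd_prod_of_mem _ (Finset.mem_univ i)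
    refine ⟨(c i).num * e, ?_⟩
    rw [he]
    push_cast
    rw [← mul_assoc, Rat.mul_den_eq_num]
  choose k hk using h0
  exact ⟨∏ j, (c j).den, k, Finset.prod_pos fun j _ => (c j).den_pos, hk⟩

theorem dich (m : Fin s → (Fin N →₀ ℕ)) (p : Fin N → ℂ) (z : Fin s → ℂ) (i : Fin N)
    (hi : p i = 0) (h : ¬ Mov m p z i) :
    ∃ (n : ℕ) (k : Fin s → ℤ), 0 < n ∧ (∀ l, z l = 0 → k l = 0) ∧
      ∀ i', p i' = 0 → ∑ l, k l * (m l i' : ℤ) = if i' = i then (n : ℤ) else 0 := by
  classical
  set v : Fin s → ({j : Fin N // p j = 0} → ℚ) := fun l j => ((m l j : ℕ) : ℚ) with hv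
  have hmem : (Pi.single (⟨i, hi⟩ : {j : Fin N // p j = 0}) (1 : ℚ)) ∈
      Submodule.span ℚ (v '' ((Finset.univ.filter fun l => z l ≠ 0 : Finset (Fin s)) : Set (Fin s))) := by
    by_contra hn
    obtain ⟨f, hf1, hf2⟩ := Submodule.exists_le_ker_of_notMem hn
    obtain ⟨D, k, hD, hk⟩ := comden (fun j : {j : Fin N // p j = 0} => f (Pi.single j 1))
    apply h
    refine ⟨fun j => if hj : p j = 0 then k ⟨j, hj⟩ else 0, ⟨fun j hj => dif_neg hj, ?_⟩, ?_⟩
    · intro l hl
      have h1 : f (v l) = 0 := by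
        have h2 : v l ∈ Submodule.span ℚ
            (v '' ((Finset.univ.filter fun l => z l ≠ 0 : Finset (Fin s)) : Set (Fin s))) :=
          Submodule.subset_span ⟨l, by simpa using hl, rfl⟩
        exact LinearMap.mem_ker.1 (hf2 h2)
      have h3 : f (v l) = ∑ j : {j : Fin N // p j = 0}, v l j * f (Pi.single j 1) := by
        conv_lhs => rw [← Finset.univ_sum_single (v l)]
        rw [map_sum]
        refine Finset.sum_congr rfl fun j _ => ?_
        have h4 : (Pi.single j (v l j) : {j : Fin N // p j = 0} → ℚ) = v l j • Pi.single j (1 : ℚ) := by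
          rw [← Pi.single_smul, smul_eq_mul, mul_one]
        rw [h4, map_smul, smul_eq_mul]
      have h5 : (∑ j : Fin N, (if hj : p j = 0 then k ⟨j, hj⟩ else 0) * (m l j : ℤ)) =
          ∑ j : {j : Fin N // p j = 0}, k j * (m l j : ℤ) := by
        have h6 : (∑ j : Fin N, (if hj : p j = 0 then k ⟨j, hj⟩ else 0) * (m l j : ℤ)) =
            ∑ j ∈ Finset.univ.filter (fun j => p j = 0),
              (if hj : p j = 0 then k ⟨j, hj⟩ else 0) * (m l j : ℤ) := by
          rw [Finset.sum_filter_of_ne]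
          intro j _ hj
          by_contra h0
          exact hj (by rw [dif_neg h0, zero_mul])
        rw [h6, Finset.sum_subtype (p := fun j => p j = 0) _ (by simp)]
        refine Finset.sum_congr rfl fun j _ => ?_
        rw [dif_pos j.2]
      have h7 : ((∑ j : {j : Fin N // p j = 0}, k j * (m l j : ℤ) : ℤ) : ℚ) = 0 := by
        push_cast
        have h8 : ∑ j : {j : Fin N // p j = 0}, (k j : ℚ) * (m l j : ℚ) = D * f (v l) := by
          rw [h3, Finset.mul_sum]
          refine Finset.sum_congr rfl fun j _ => ?_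
          rw [hk j]
          simp only [hv]
          ring
        rw [h8, h1, mul_zero]
      show (∑ j : Fin N, (if hj : p j = 0 then k ⟨j, hj⟩ else 0) * (m l j : ℤ)) = 0
      rw [h5]
      exact_mod_cast h7
    · show (if hj : p i = 0 then k ⟨i, hj⟩ else 0) ≠ 0
      rw [dif_pos hi]
      intro h0
      have h9 := hk ⟨i, hi⟩
      rw [h0, Int.cast_zero] at h9
      have h10 : (D : ℚ) ≠ 0 := by exact_mod_cast hD.ne'
      exact (mul_ne_zero hf1 h10) h9.symm
  rw [Submodule.mem_span_image_finset_iff_exists_fun'] at hmem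
  obtain ⟨c, hc⟩ := hmem
  obtain ⟨D, k, hD, hk⟩ := comden (fun l => if z l ≠ 0 then c l else 0)
  refine ⟨D, k, hD, ?_, ?_⟩
  · intro l hl
    have h1 := hk l
    rw [if_neg (not_not.2 hl), zero_mul] at h1
    exact_mod_cast h1
  · intro i' hi'
    have h1 : ((∑ l, k l * (m l i' : ℤ) : ℤ) : ℚ) = ((if i' = i then (D : ℤ) else 0 : ℤ) : ℚ) := by
      push_cast
      have h2 := congrFun hc ⟨i', hi'⟩
      rw [Finset.sum_apply] at h2
      have h3 : ∑ l, (k l : ℚ) * (m l i' : ℚ) =
          D * ∑ l ∈ Finset.univ.filter (fun l => z l ≠ 0), (c l • v l) ⟨i', hi'⟩ := by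
        rw [Finset.mul_sum, Finset.sum_filter]
        refine Finset.sum_congr rfl fun l _ => ?_
        rw [hk l]
        split_ifs with h4
        · simp only [hv, Pi.smul_apply, smul_eq_mul]
          ring
        · ring
      rw [h3, h2]
      by_cases h5 : i' = i
      · subst h5
        simp
      · rw [Pi.single_eq_of_ne (by simpa [Subtype.ext_iff] using h5), if_neg h5]
        simp
    exact_mod_cast h1

end NW
end MotMono
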