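import Pool.Agent.Lib.MP_4e5fcd_ag.NW.Base
import Pool.Agent.Lib.MP_4e5fcd_ag.HY.R4
import Pool.Agent.Lib.MP_4e5fcd_ag.HY.A3

/-!
# NW-A2: torus actions on the contact jets of a tuple of monomials

For a weight `w` with `Wt m p z w` and `t ≠ 0` let `(t · γ) (i, l) = t ^ (w i) * γ (i, l)`. Then
`along (mon m l) (t · γ) = t ^ (∑ i, w i * m l i) • along (mon m l) γ` (`along` of a monomial is the
product of the powers of the coordinate polynomials `arc γ i`; zpow). So
`E d = CT (mon m) p z d` is stable: base points `p` (if `p i ≠ 0` then `w i = 0`, otherwise the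
coordinate is `0`), for `z l ≠ 0` nothing changes, for `z l = 0` the coefficients of level `≤ d` are
`0`. The same for the subset where `γ (i, ·) = 0` for all `i` in a given set `J`.
`chi_mov`: choose for every `i` with `Mov m p z i` a weight `w_i` (`w_i i ≠ 0`); by induction on a finite
set `S` of such `i` (`Finset.induction_on`), `χ (cls E) = χ (cls {γ ∈ E | ∀ i ∈ S, ∀ j, w_i j ≠ 0 → ∀ l,
γ (j, l) = 0})` by `chi_fixed` (HY/R4; weights `fun q => w q.1`; the set is constructible:
`constr_CT`-like lemma of HY/A3 and coordinate conditions). For `S` = all `i` with `Mov`: the condition is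
`γ (j, l) = 0` for all `j` with `Mov m p z j` (`w_i j ≠ 0` implies `Mov m p z j`).
-/

open MvPolynomial

namespace MotMono
namespace NW

open CN HY

variable {N s : ℕ}

private theorem a2_constr_coord {τ : Type} [Finite τ] (P : τ → Prop) :
    Constr {z : τ → ℂ | ∀ q, P q → z q = 0} := by
  have h1 := constr_zeroLocus {g : MvPolynomial τ ℂ | ∃ q, P q ∧ g = X q}
  have h2 : {z : τ → ℂ | ∀ q, P q → z q = 0} =
      {x | ∀ f ∈ {g : MvPolynomial τ ℂ | ∃ q, P q ∧ g = X q}, eval x f = 0} := by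
    ext γ
    simp only [Set.mem_ofPred_eq]
    constructor
    · rintro h g ⟨q, hq, rfl⟩
      rw [eval_X]
      exact h q hq
    · intro h q hq
      have := h _ ⟨q, hq, rfl⟩
      rwa [eval_X] at this
  rw [h2]
  exact h1

private theorem a2_arc {n : ℕ} (w : Fin N → ℤ) (t : ℂ) (γ : Fin N × Fin n → ℂ) (i : Fin N) :
    arc (fun q => t ^ (w q.1) * γ q) i = Polynomial.C (t ^ (w i)) * arc γ i := by
  ext l
  rw [Polynomial.coeff_C_mul, a1_arc_coeff, a1_arc_coeff]
  split_ifs
  · rfl
  · rw [mul_zero]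

private theorem a2_zpow {t : ℂ} (ht : t ≠ 0) (a : Fin N → ℤ) (S : Finset (Fin N)) :
    ∏ i ∈ S, t ^ (a i) = t ^ (∑ i ∈ S, a i) := by
  classical
  induction S using Finset.induction_on with
  | empty => simp
  | insert i S hi ih => rw [Finset.prod_insert hi, Finset.sum_insert hi, zpow_add₀ ht, ih]

private theorem a2_along {n : ℕ} (m : Fin s → (Fin N →₀ ℕ)) (l : Fin s) (w : Fin N → ℤ) {t : ℂ}
    (ht : t ≠ 0) (γ : Fin N × Fin n → ℂ) :
    along (mon m l) (fun q => t ^ (w q.1) * γ q) =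
      Polynomial.C (t ^ (∑ i, w i * (m l i : ℤ))) * along (mon m l) γ := by
  unfold along mon
  rw [aeval_monomial, aeval_monomial, map_one, one_mul, one_mul,
    Finsupp.prod_fintype _ _ (fun i => pow_zero _), Finsupp.prod_fintype _ _ (fun i => pow_zero _)]
  have h1 : ∀ i, arc (fun q => t ^ (w q.1) * γ q) i ^ (m l i) =
      Polynomial.C (t ^ (w i * (m l i : ℤ))) * arc γ i ^ (m l i) := by
    intro i
    rw [a2_arc, mul_pow, ← map_pow, zpow_mul, zpow_natCast]
  simp only [h1]
  rw [Finset.prod_mul_distrib, ← map_prod, a2_zpow ht]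

private theorem a2_stab (m : Fin s → (Fin N →₀ ℕ)) (p : Fin N → ℂ) (z : Fin s → ℂ) (d : ℕ)
    {w : Fin N → ℤ} (hw : Wt m p z w) {t : ℂ} (ht : t ≠ 0) {γ : Fin N × Fin (d + 1) → ℂ}
    (hγ : γ ∈ CT (mon m) p z d) : (fun q => t ^ (w q.1) * γ q) ∈ CT (mon m) p z d := by
  obtain ⟨h1, h2, h3⟩ := hγ
  refine ⟨?_, ?_, ?_⟩
  · funext i
    have h4 : γ (i, 0) = p i := congrFun h1 i
    show t ^ (w i) * γ (i, 0) = p i
    rw [h4]
    by_cases hp : p i = 0
    · rw [hp, mul_zero]
    · rw [hw.1 i hp, zpow_zero, one_mul]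
  · intro l k hk
    rw [a2_along m l w ht, Polynomial.coeff_C_mul, h2 l k hk, mul_zero]
  · funext l
    have h4 : (along (mon m l) γ).coeff d = z l := congrFun h3 l
    show (along (mon m l) (fun q => t ^ (w q.1) * γ q)).coeff d = z l
    rw [a2_along m l w ht, Polynomial.coeff_C_mul, h4]
    by_cases hz : z l = 0
    · rw [hz, mul_zero]
    · rw [hw.2 l hz, zpow_zero, one_mul]

theorem chi_mov {χ : K0 →+* ℤ} (hχ : IsEulerCharF χ) (m : Fin s → (Fin N →₀ ℕ)) (p : Fin N → ℂ)
    (z : Fin s → ℂ) (d : ℕ) :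
    χ (cls (CT (mon m) p z d)) =
      χ (cls {γ | γ ∈ CT (mon m) p z d ∧ ∀ i, Mov m p z i → ∀ l, γ (i, l) = 0}) := by
  classical
  set W : Fin N → Fin N → ℤ := fun i => if h : Mov m p z i then h.choose else 0 with hW
  have hWt : ∀ i, Wt m p z (W i) := by
    intro i
    by_cases h : Mov m p z i
    · simp only [hW, dif_pos h]
      exact h.choose_spec.1
    · simp only [hW, dif_neg h]
      exact ⟨fun _ _ => rfl, fun _ _ => by simp⟩
  have hWi : ∀ i, Mov m p z i → W i i ≠ 0 := by
    intro i h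
    simp only [hW, dif_pos h]
    exact h.choose_spec.2
  have key : ∀ S : Finset (Fin N), χ (cls (CT (mon m) p z d)) =
      χ (cls {γ | γ ∈ CT (mon m) p z d ∧ ∀ i ∈ S, ∀ j, W i j ≠ 0 → ∀ l, γ (j, l) = 0}) := by
    intro S
    induction S using Finset.induction_on with
    | empty =>
      have h0 : {γ | γ ∈ CT (mon m) p z d ∧
          ∀ i ∈ (∅ : Finset (Fin N)), ∀ j, W i j ≠ 0 → ∀ l, γ (j, l) = 0} =
          CT (mon m) p z d := by
        ext γ
        simp only [Set.mem_ofPred_eq, Finset.notMem_empty, false_imp_iff, implies_true, and_true]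
      rw [h0]
    | insert a S ha ih =>
      rw [ih]
      set E := {γ | γ ∈ CT (mon m) p z d ∧ ∀ i ∈ S, ∀ j, W i j ≠ 0 → ∀ l, γ (j, l) = 0} with hE
      have hEc : Constr E := by
        have h1 := (constr_CT (mon m) p z d).inter
          (a2_constr_coord (fun q : Fin N × Fin (d + 1) => ∃ i ∈ S, W i q.1 ≠ 0))
        have h2 : E = CT (mon m) p z d ∩
            {γ | ∀ q : Fin N × Fin (d + 1), (∃ i ∈ S, W i q.1 ≠ 0) → γ q = 0} := by
          ext γ
          simp only [hE, Set.mem_ofPred_eq, Set.mem_inter_iff]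
          constructor
          · rintro ⟨h3, h4⟩
            refine ⟨h3, ?_⟩
            rintro ⟨j, l⟩ ⟨i, hi, hij⟩
            exact h4 i hi j hij l
          · rintro ⟨h3, h4⟩
            exact ⟨h3, fun i hi j hij l => h4 (j, l) ⟨i, hi, hij⟩⟩
        rw [h2]
        exact h1
      rw [chi_fixed hχ (fun q : Fin N × Fin (d + 1) => W a q.1) E hEc (by
        intro t ht γ hγ
        refine ⟨a2_stab m p z d (hWt a) ht hγ.1, fun i hi j hij l => ?_⟩
        show t ^ (W a j) * γ (j, l) = 0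
        rw [hγ.2 i hi j hij l, mul_zero])]
      congr 2
      ext γ
      simp only [hE, Set.mem_ofPred_eq, Finset.mem_insert]
      constructor
      · rintro ⟨⟨h3, h4⟩, h5⟩
        refine ⟨h3, ?_⟩
        rintro i (rfl | hi) j hij l
        · exact h5 (j, l) hij
        · exact h4 i hi j hij l
      · rintro ⟨h3, h4⟩
        refine ⟨⟨h3, fun i hi j hij l => h4 i (Or.inr hi) j hij l⟩, ?_⟩
        rintro ⟨j, l⟩ hij
        exact h4 a (Or.inl rfl) j hij l
  rw [key Finset.univ]
  congr 2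
  ext γ
  simp only [Set.mem_ofPred_eq, Finset.mem_univ, true_imp_iff]
  constructor
  · rintro ⟨h3, h4⟩
    exact ⟨h3, fun i hi l => h4 i i (hWi i hi) l⟩
  · rintro ⟨h3, h4⟩
    exact ⟨h3, fun i j hij l => h4 j ⟨W i, hWt i, hij⟩ l⟩

end NW
end MotMono
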