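import Pool.Agent.Lib.MP_4e5fcd_ag.NW.A2
import Pool.Agent.Lib.MP_4e5fcd_ag.NW.A4a
import Pool.Agent.Lib.MP_4e5fcd_ag.NW.A4b

/-!
# NW-A4: the Lefschetz numbers of an ideal generated by monomials

Proof. Let `n`, `κ` be from `lead_orders`. If there is no `d > 0` with a `Lead m p z d a b`, all numbers
are `0` (`chi_mov`, `mem_fix_iff`, `cls_empty`): `c = 0`, `e = 1`. Otherwise let `R` be the finite set
(`lead_finite`, `Set.Finite.toFinset`) of the `b` such that `Lead m p z d a b` for some `d > 0` and some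
`a`, `c` its cardinality.
For `d > 0`: (i) for `b ∈ R` there is an `a` with `Lead m p z d a b` iff `n i ∣ κ i * d` for all `i`:
`→` by `lead_orders`; `←`: let `Lead m p z d₀ a₀ b`, `d₀ > 0`; `n i * a₀ i = κ i * d₀` shows `κ i ≥ 0`;
put `a i = κ i * d / n i` (a natural number); `a i * d₀ = a₀ i * d` (multiply by `n i`), `lead_scale`.
(ii) `a` is unique: `a i = κ i * d / n i`.
(iii) Let `e > 0` be the least positive integer with `n i ∣ κ i * e` for all `i` (e.g. `∏ n i` has the
property, `Nat.find`); then for all `d > 0`: (`n i ∣ κ i * d` for all `i`) iff `e ∣ d` (write `d = e q + r`,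
`r < e`).
If `e ∣ d`: the set of `mem_fix_iff` is the disjoint union over `b ∈ R` of the sets
`DD d {i | Mov m p z i} (a_d) b`, `a_d i = κ i * d / n i` (`lead_unique` for the disjointness), so its
class has `χ = c` (`cls_biUnion`, `constr_DD`, `chi_DD`). If `¬ e ∣ d` it is empty.
-/

open MvPolynomial

namespace MotMono
namespace NW

open CN HY

variable {N s : ℕ}

private theorem A4_lead_iff {m : Fin s → (Fin N →₀ ℕ)} {p : Fin N → ℂ} {z : Fin s → ℂ}
    {n : Fin N → ℕ} {κ : Fin N → ℤ} (hn : ∀ i, 0 < n i)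
    (hord : ∀ d a b, Lead m p z d a b → ∀ i, (n i : ℤ) * a i = κ i * d) {d₀ d : ℕ}
    (hd₀ : 0 < d₀) (hd : 0 < d) {a₀ : Fin N → ℕ} {b : Fin N → ℂ} (h₀ : Lead m p z d₀ a₀ b) :
    (∃ a, Lead m p z d a b) ↔ ∀ i, (n i : ℤ) ∣ κ i * d := by
  constructor
  · rintro ⟨a, ha⟩ i
    exact ⟨a i, (hord d a b ha i).symm⟩
  · intro h
    choose q hq using h
    have hκ : ∀ i, 0 ≤ κ i := by
      intro i
      have h1 := hord d₀ a₀ b h₀ i
      have h2 : (0 : ℤ) ≤ κ i * d₀ := by
        rw [← h1]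
        positivity
      exact nonneg_of_mul_nonneg_left h2 (by exact_mod_cast hd₀)
    have hq0 : ∀ i, 0 ≤ q i := by
      intro i
      have h2 : (0 : ℤ) ≤ n i * q i := by
        rw [← hq i]
        exact mul_nonneg (hκ i) (by positivity)
      exact nonneg_of_mul_nonneg_right h2 (by exact_mod_cast hn i)
    refine ⟨fun i => (q i).toNat, lead_scale m p z hd₀ hd h₀ ?_⟩
    intro i
    have h1 := hord d₀ a₀ b h₀ i
    have h3 : (((q i).toNat : ℕ) : ℤ) = q i := Int.toNat_of_nonneg (hq0 i)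
    have h4 : ((n i : ℕ) : ℤ) ≠ 0 := by
      have := hn i
      exact_mod_cast this.ne'
    have h5 : (((q i).toNat : ℕ) : ℤ) * d₀ = a₀ i * d := by
      rw [h3]
      apply mul_left_cancel₀ h4
      calc (n i : ℤ) * (q i * d₀) = (n i * q i) * d₀ := by ring
        _ = κ i * d * d₀ := by rw [← hq i]
        _ = (κ i * d₀) * d := by ring
        _ = (n i * a₀ i) * d := by rw [h1]
        _ = n i * (a₀ i * d) := by ring
    exact_mod_cast h5

private theorem A4_period {n : Fin N → ℕ} {κ : Fin N → ℤ} (hn : ∀ i, 0 < n i) :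
    ∃ e : ℕ, 0 < e ∧ ∀ d : ℕ, 0 < d → ((∀ i, (n i : ℤ) ∣ κ i * d) ↔ e ∣ d) := by
  classical
  have hex : ∃ e : ℕ, 0 < e ∧ ∀ i, (n i : ℤ) ∣ κ i * e := by
    refine ⟨∏ i, n i, Finset.prod_pos fun i _ => hn i, ?_⟩
    intro i
    refine Dvd.dvd.mul_left ?_ _
    exact_mod_cast Finset.dvd_prod_of_mem n (Finset.mem_univ i)
  obtain ⟨he0, he⟩ := Nat.find_spec hex
  have hmin : ∀ r < Nat.find hex, ¬ (0 < r ∧ ∀ i, (n i : ℤ) ∣ κ i * r) :=
    fun r hr => Nat.find_min hex hr
  refine ⟨Nat.find hex, he0, ?_⟩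
  set e := Nat.find hex with hedef
  intro d hd
  constructor
  · intro h
    have hr : ∀ i, (n i : ℤ) ∣ κ i * ((d % e : ℕ) : ℤ) := by
      intro i
      have h1 : (κ i * ((d % e : ℕ) : ℤ)) = κ i * d - (κ i * e) * ((d / e : ℕ) : ℤ) := by
        have h2 : (d : ℤ) = e * ((d / e : ℕ) : ℤ) + ((d % e : ℕ) : ℤ) := by
          exact_mod_cast (Nat.div_add_mod d e).symm
        linear_combination (-κ i) * h2
      rw [h1]
      exact Dvd.dvd.sub (h i) (Dvd.dvd.mul_right (he i) _)
    have h3 := hmin (d % e) (Nat.mod_lt _ he0)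
    rcases Nat.eq_zero_or_pos (d % e) with h4 | h4
    · exact Nat.dvd_of_mod_eq_zero h4
    · exact absurd ⟨h4, hr⟩ h3
  · rintro ⟨q, rfl⟩ i
    have := (he i).mul_right (q : ℤ)
    rw [mul_assoc] at this
    exact_mod_cast this

theorem chi_mon {χ : K0 →+* ℤ} (hχ : IsEulerCharF χ) (m : Fin s → (Fin N →₀ ℕ)) (p : Fin N → ℂ)
    (z : Fin s → ℂ) :
    ∃ c e : ℕ, 0 < e ∧ ∀ d, 0 < d →
      χ (cls (CT (mon m) p z d)) = if e ∣ d then (c : ℤ) else 0 := by
  classical
  obtain ⟨n, κ, hn, hord⟩ := lead_orders m p z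
  obtain ⟨e, he0, he⟩ := A4_period (n := n) (κ := κ) hn
  have hfin : {b : Fin N → ℂ | ∃ d a, 0 < d ∧ Lead m p z d a b}.Finite := by
    refine (lead_finite m p z).subset ?_
    rintro b ⟨d, a, -, h⟩
    exact ⟨d, a, h⟩
  have hR : ∀ b, b ∈ hfin.toFinset ↔ ∃ d a, 0 < d ∧ Lead m p z d a b := by
    intro b
    rw [Set.Finite.mem_toFinset]
    rfl
  refine ⟨hfin.toFinset.card, e, he0, ?_⟩
  intro d hd
  -- the class as a sum over the leading coefficients
  have hsum : χ (cls (CT (mon m) p z d)) =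
      ((hfin.toFinset.filter fun b => ∃ a, Lead m p z d a b).card : ℤ) := by
    rw [chi_mov hχ]
    have hcover : {γ | γ ∈ CT (mon m) p z d ∧ ∀ i, Mov m p z i → ∀ l, γ (i, l) = 0} =
        ⋃ b ∈ hfin.toFinset.filter (fun b => ∃ a, Lead m p z d a b),
          (if h : ∃ a, Lead m p z d a b then DD d {i | Mov m p z i} h.choose b else ∅) := by
      ext γ
      rw [Set.mem_ofPred_eq, mem_fix_iff m p z hd γ]
      simp only [Set.mem_iUnion, Finset.mem_filter, exists_prop]
      constructor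
      · rintro ⟨a, b, hab, hγ⟩
        have hex : ∃ a, Lead m p z d a b := ⟨a, hab⟩
        refine ⟨b, ⟨(hR b).2 ⟨d, a, hd, hab⟩, hex⟩, ?_⟩
        rw [dif_pos hex]
        have h1 : ∀ i, (n i : ℤ) * a i = n i * hex.choose i := by
          intro i
          rw [hord d a b hab i, hord d _ b hex.choose_spec i]
        have h2 : hex.choose = a := by
          funext i
          have h3 : (n i : ℤ) ≠ 0 := by
            have := hn i
            exact_mod_cast this.ne'
          have h4 := mul_left_cancel₀ h3 (h1 i)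
          exact_mod_cast h4.symm
        rw [h2]
        exact hγ
      · rintro ⟨b, ⟨-, hex⟩, hγ⟩
        rw [dif_pos hex] at hγ
        exact ⟨hex.choose, b, hex.choose_spec, hγ⟩
    rw [hcover, cls_biUnion, map_sum]
    · rw [Finset.sum_congr rfl (g := fun _ => (1 : ℤ)) ?_]
      · rw [Finset.sum_const, nsmul_eq_mul, mul_one]
      · intro b hb
        rw [dif_pos (Finset.mem_filter.1 hb).2]
        exact chi_DD hχ d _ _ b
    · intro b hb
      rw [dif_pos (Finset.mem_filter.1 hb).2]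
      exact constr_DD d _ _ b
    · intro b hb b' hb' hne
      rw [dif_pos (Finset.mem_filter.1 hb).2, dif_pos (Finset.mem_filter.1 hb').2]
      rw [Set.disjoint_left]
      intro γ h1 h2
      exact hne (lead_unique m p z (Finset.mem_filter.1 hb).2.choose_spec h1
        (Finset.mem_filter.1 hb').2.choose_spec h2).2
  rw [hsum]
  by_cases hed : e ∣ d
  · rw [if_pos hed, Finset.filter_true_of_mem]
    intro b hb
    obtain ⟨d₀, a₀, hd₀, h₀⟩ := (hR b).1 hb
    exact (A4_lead_iff hn hord hd₀ hd h₀).2 ((he d hd).2 hed)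
  · rw [if_neg hed, Finset.filter_false_of_mem]
    · simp
    · intro b hb hex
      obtain ⟨d₀, a₀, hd₀, h₀⟩ := (hR b).1 hb
      exact hed ((he d hd).1 ((A4_lead_iff hn hord hd₀ hd h₀).1 hex))

end NW
end MotMono
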