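import Pool.Agent.Lib.MP_4e5fcd_ag.NW.Base
import Pool.Agent.Lib.MP_4e5fcd_ag.CN.P2

/-!
# NW-B1: an ideal with the same integral closure as a monomial ideal: orders along jets

`along f γ` is multiplicative and additive in `f`; `OrdGe I k γ` says `X ^ k ∣ along f γ` for all
`f ∈ I` (`Polynomial.X_pow_dvd_iff`); coefficient `0` of `along h γ` is `eval (bp γ) h`
(`LF.coeff_along_zero`).
`dvd_pow_along`: `X ^ (i k) ∣ along a γ` for `a ∈ I ^ i` if `OrdGe I k γ`: `Submodule.pow_induction_on_left'`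
or: the preimage under `along · γ` (a ring homomorphism `φ`) of the ideal `(X ^ k)` contains `I`, so
`φ (I ^ i) ⊆ (X ^ k) ^ i` (`Ideal.map_pow`, `Ideal.map_le_iff_le_comap`, `Ideal.span_singleton_pow`).
`ordGe_red_iff`. `←`: for `f ∈ I`, `h * f ∈ span (range (mon m))`, so `X ^ k ∣ along h γ * along f γ`, and
`along h γ` is prime to `X` (`(along h γ).coeff 0 ≠ 0`; `IsCoprime.dvd_of_dvd_mul_left` or
`Prime.pow_dvd_of_dvd_mul_left Polynomial.prime_X`).
`→`: let `g = h * mon m l`, `G = along g γ`, and suppose `¬ X ^ k ∣ G`. Then `G = X ^ e * u`, `e < k`,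
`u (0) ≠ 0` (`Polynomial.exists_eq_pow_rootMultiplicity_mul_and_not_dvd` or `Nat.find`). Integral equation:
`G ^ n = - ∑_{i=1}^{n} along (a i) γ * G ^ (n - i)`, and `X ^ (n e + 1)` divides the right side
(`i k + (n - i) e ≥ n e + 1`) but not the left side. So `X ^ k ∣ along h γ * along (mon m l) γ`, hence
`X ^ k ∣ along (mon m l) γ`; `ordGe_span` (CN/P2).
`exOrd_red_iff`: `∃ f ∈ I, (along f γ).coeff k ≠ 0` is `¬ OrdGe I (k + 1) γ` when `OrdGe I k γ`.
-/

open MvPolynomial

namespace MotMono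
namespace NW

open CN HY

variable {N s : ℕ}

private theorem b1_mul {n : ℕ} (f g : MvPolynomial (Fin N) ℂ) (γ : Fin N × Fin n → ℂ) :
    along (f * g) γ = along f γ * along g γ := by simp [along]

private theorem b1_add {n : ℕ} (f g : MvPolynomial (Fin N) ℂ) (γ : Fin N × Fin n → ℂ) :
    along (f + g) γ = along f γ + along g γ := by simp [along]

private theorem b1_pow {n : ℕ} (f : MvPolynomial (Fin N) ℂ) (k : ℕ) (γ : Fin N × Fin n → ℂ) :
    along (f ^ k) γ = along f γ ^ k := by simp [along]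

private theorem b1_zero {n : ℕ} (γ : Fin N × Fin n → ℂ) :
    along (0 : MvPolynomial (Fin N) ℂ) γ = 0 := by simp [along]

private theorem b1_sum {n : ℕ} (t : Finset ℕ) (F : ℕ → MvPolynomial (Fin N) ℂ)
    (γ : Fin N × Fin n → ℂ) : along (∑ i ∈ t, F i) γ = ∑ i ∈ t, along (F i) γ := by
  simp [along, map_sum]

theorem dvd_pow_along {n k i : ℕ} (I : Ideal (MvPolynomial (Fin N) ℂ)) {γ : Fin N × Fin n → ℂ}
    (hγ : OrdGe I k γ) {a : MvPolynomial (Fin N) ℂ} (ha : a ∈ I ^ i) :
    (Polynomial.X : Polynomial ℂ) ^ (i * k) ∣ along a γ := by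
  have hI : ∀ f ∈ I, (Polynomial.X : Polynomial ℂ) ^ k ∣ along f γ := fun f hf =>
    Polynomial.X_pow_dvd_iff.2 (hγ f hf)
  induction i generalizing a with
  | zero => rw [zero_mul, pow_zero]; exact one_dvd _
  | succ i ih =>
    rw [pow_succ] at ha
    refine Submodule.mul_induction_on ha (fun x hx y hy => ?_) (fun x y hx hy => ?_)
    · rw [b1_mul, Nat.succ_mul, pow_add]
      exact mul_dvd_mul (ih hx) (hI y hy)
    · rw [b1_add]
      exact dvd_add hx hy

private theorem b1_not {n : ℕ} (h : MvPolynomial (Fin N) ℂ) (γ : Fin N × Fin (n + 1) → ℂ)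
    (hp : eval (bp γ) h ≠ 0) : ¬ (Polynomial.X : Polynomial ℂ) ∣ along h γ := by
  rw [Polynomial.X_dvd_iff, LF.coeff_along_zero]
  exact hp

theorem ordGe_red_iff {n : ℕ} (I : Ideal (MvPolynomial (Fin N) ℂ)) (m : Fin s → (Fin N →₀ ℕ))
    (h : MvPolynomial (Fin N) ℂ) (hI : RedAt I m h) (γ : Fin N × Fin (n + 1) → ℂ)
    (hp : eval (bp γ) h ≠ 0) (k : ℕ) :
    OrdGe I k γ ↔ OrdGe (Ideal.span (Set.range (mon m))) k γ := by
  have hX := b1_not h γ hp
  constructor
  · intro hO
    rw [ordGe_span]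
    rintro f ⟨l, rfl⟩
    rw [← Polynomial.X_pow_dvd_iff]
    refine Polynomial.prime_X.pow_dvd_of_dvd_mul_left k hX ?_
    rw [← b1_mul]
    obtain ⟨q, a, hq, ha, heq⟩ := hI.2 l
    have heq2 := congrArg (fun f => along f γ) heq
    simp only [b1_add, b1_pow, b1_sum, b1_zero] at heq2
    suffices H : ∀ j ≤ k, (Polynomial.X : Polynomial ℂ) ^ j ∣ along (h * mon m l) γ from
      H k le_rfl
    intro j
    induction j with
    | zero => intro _; rw [pow_zero]; exact one_dvd _
    | succ j ih =>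
      intro hj
      have hd := ih (by omega)
      obtain ⟨u, hu⟩ := hd
      have h1 : (Polynomial.X : Polynomial ℂ) ^ (j * q + 1) ∣
          ∑ i ∈ Finset.Icc 1 q, along (a i * (h * mon m l) ^ (q - i)) γ := by
        refine Finset.dvd_sum fun i hi => ?_
        rw [Finset.mem_Icc] at hi
        rw [b1_mul, b1_pow, hu, mul_pow, ← pow_mul]
        have h2 := dvd_pow_along I hO (ha i)
        have h3 : (Polynomial.X : Polynomial ℂ) ^ (i * k + j * (q - i)) ∣
            along (a i) γ * (Polynomial.X ^ (j * (q - i)) * u ^ (q - i)) := by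
          rw [pow_add]
          exact mul_dvd_mul h2 (Dvd.intro _ rfl)
        refine (pow_dvd_pow _ ?_).trans h3
        obtain ⟨r, hr⟩ : ∃ r, q = i + r := ⟨q - i, by omega⟩
        have h3 : q - i = r := by omega
        rw [h3, hr]
        have h4 : i * (j + 1) ≤ i * k := Nat.mul_le_mul_left i hj
        have h5 : i * (j + 1) = i * j + i := by ring
        have h6 : j * (i + r) = i * j + j * r := by ring
        omega
      have h3 : (Polynomial.X : Polynomial ℂ) ^ (j * q + 1) ∣ along (h * mon m l) γ ^ q := by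
        have h4 : along (h * mon m l) γ ^ q =
            -∑ i ∈ Finset.Icc 1 q, along (a i * (h * mon m l) ^ (q - i)) γ :=
          eq_neg_of_add_eq_zero_left heq2
        rw [h4]
        exact h1.neg_right
      rw [hu, mul_pow, ← pow_mul, pow_succ] at h3
      have h5 : (Polynomial.X : Polynomial ℂ) ∣ u ^ q :=
        (mul_dvd_mul_iff_left (pow_ne_zero _ Polynomial.X_ne_zero)).1 h3
      have h6 := Polynomial.prime_X.dvd_of_dvd_pow h5
      rw [hu, pow_succ]
      exact mul_dvd_mul_left _ h6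
  · intro hO f hf
    rw [← Polynomial.X_pow_dvd_iff]
    refine Polynomial.prime_X.pow_dvd_of_dvd_mul_left k hX ?_
    rw [← b1_mul]
    exact Polynomial.X_pow_dvd_iff.2 (hO _ (hI.1 f hf))

private theorem b1_ex {k : ℕ} (I : Ideal (MvPolynomial (Fin N) ℂ))
    (γ : Fin N × Fin (k + 1) → ℂ) : γ ∈ ExOrd I k ↔ OrdGe I k γ ∧ ¬ OrdGe I (k + 1) γ := by
  have e : γ ∈ ExOrd I k ↔ OrdGe I k γ ∧ ∃ f ∈ I, (along f γ).coeff k ≠ 0 := Iff.rfl
  rw [e]
  refine and_congr_right fun h => ?_
  constructor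
  · rintro ⟨f, hf, h1⟩ h2
    exact h1 (h2 f hf k (Nat.lt_succ_self k))
  · intro h2
    by_contra hc
    push Not at hc
    apply h2
    intro f hf l hl
    rcases Nat.lt_succ_iff_lt_or_eq.1 hl with h3 | h3
    · exact h f hf l h3
    · rw [h3]; exact hc f hf

theorem exOrd_red_iff {k : ℕ} (I : Ideal (MvPolynomial (Fin N) ℂ)) (m : Fin s → (Fin N →₀ ℕ))
    (h : MvPolynomial (Fin N) ℂ) (hI : RedAt I m h) (γ : Fin N × Fin (k + 1) → ℂ)
    (hp : eval (bp γ) h ≠ 0) :
    γ ∈ ExOrd I k ↔ γ ∈ ExOrd (Ideal.span (Set.range (mon m))) k := by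
  rw [b1_ex, b1_ex, ordGe_red_iff I m h hI γ hp k, ordGe_red_iff I m h hI γ hp (k + 1)]

end NW
end MotMono
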