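import Pool.Agent.Lib.MP_4e5fcd_ag.NW.B1
import Pool.Agent.Lib.MP_4e5fcd_ag.TV.V0

/-!
# NW-B2: the zeta functions

`Zf_red`: the families `fam I Γ k` and `fam (span …) Γ k` are equal (`exOrd_red_iff`; the base point of
`z ∈ fam I Γ k` is the second component of an element of `Γ`, where `h ≠ 0`).
`ureg_red`: with the same `D`, `K`; over `g * h ≠ 0` both `g`, `h` are `≠ 0`.
-/


open MvPolynomial

namespace MotMono
namespace NW

open CN HY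

variable {N s : ℕ}

private theorem b2_bp {σ : Type} {k : ℕ} (z : σ ⊕ (Fin N × Fin (k + 1)) → ℂ) :
    (bp (fun q : Fin N × Fin (k + 1) => z (Sum.inr q))) =
      fun i => Sum.elim (fun s => z (Sum.inl s)) (fun i => z (Sum.inr (i, 0))) (Sum.inr i) := rfl

private theorem b2_ne {σ : Type} {k : ℕ} (I : Ideal (MvPolynomial (Fin N) ℂ))
    (h : MvPolynomial (Fin N) ℂ) (Γ : Set (σ ⊕ Fin N → ℂ))
    (hΓ : ∀ z ∈ Γ, eval (fun i => z (Sum.inr i)) h ≠ 0)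
    (z : σ ⊕ (Fin N × Fin (k + 1)) → ℂ) (hz : z ∈ fam I Γ k) :
    eval (bp (fun q : Fin N × Fin (k + 1) => z (Sum.inr q))) h ≠ 0 := by
  have h3 := hΓ _ hz.1
  rw [b2_bp]
  exact h3

private theorem b2_fam (I : Ideal (MvPolynomial (Fin N) ℂ)) (m : Fin s → (Fin N →₀ ℕ))
    (h : MvPolynomial (Fin N) ℂ) (hI : RedAt I m h) {σ : Type}
    (Γ : Set (σ ⊕ Fin N → ℂ)) (hΓ : ∀ z ∈ Γ, eval (fun i => z (Sum.inr i)) h ≠ 0) (k : ℕ) :
    fam I Γ k = fam (Ideal.span (Set.range (mon m))) Γ k := by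
  apply Set.Subset.antisymm
  · intro z hz
    exact ⟨hz.1, (exOrd_red_iff I m h hI (fun q => z (Sum.inr q)) (b2_ne I h Γ hΓ z hz)).1 hz.2⟩
  · intro z hz
    exact ⟨hz.1, (exOrd_red_iff I m h hI (fun q => z (Sum.inr q))
      (b2_ne _ h Γ hΓ z hz)).2 hz.2⟩

theorem Zf_red (I : Ideal (MvPolynomial (Fin N) ℂ)) (m : Fin s → (Fin N →₀ ℕ))
    (h : MvPolynomial (Fin N) ℂ) (hI : RedAt I m h) {σ : Type} [Finite σ]
    (Γ : Set (σ ⊕ Fin N → ℂ)) (hΓ : ∀ z ∈ Γ, eval (fun i => z (Sum.inr i)) h ≠ 0) :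
    Zf I Γ = Zf (Ideal.span (Set.range (mon m))) Γ := by
  ext k
  rw [Zf, Zf, PowerSeries.coeff_mk, PowerSeries.coeff_mk, b2_fam I m h hI Γ hΓ k]

theorem ureg_red {s₀ : ℚ} (I : Ideal (MvPolynomial (Fin N) ℂ)) (m : Fin s → (Fin N →₀ ℕ))
    (h g : MvPolynomial (Fin N) ℂ) (hI : RedAt I m h)
    (hg : TV.UReg s₀ (Ideal.span (Set.range (mon m))) g) : TV.UReg s₀ I (g * h) := by
  obtain ⟨D, hD, K, hK⟩ := hg
  refine ⟨D, hD, K, fun σ _ Γ hΓ hne => ?_⟩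
  have h1 : ∀ z ∈ Γ, eval (fun i => z (Sum.inr i)) g ≠ 0 := by
    intro z hz
    have h2 := hne z hz
    rw [map_mul] at h2
    exact left_ne_zero_of_mul h2
  have h3 : ∀ z ∈ Γ, eval (fun i => z (Sum.inr i)) h ≠ 0 := by
    intro z hz
    have h2 := hne z hz
    rw [map_mul] at h2
    exact right_ne_zero_of_mul h2
  rw [Zf_red I m h hI Γ h3]
  exact hK σ Γ hΓ h1

end NW
end MotMono
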