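import Pool.Agent.Lib.MP_4e5fcd_ag.NW.B1
import Pool.Agent.Lib.MP_4e5fcd_ag.HY.A2
import Pool.Agent.Lib.MP_4e5fcd_ag.HY.A3

/-!
# NW-B3: leading coefficients

`lead_const`: let `P i a` be the statement (for all `i`, `a`): there is a constant `c` such that
for all `d > 0` and all `γ ∈ CT f p y d`: `X ^ (i d) ∣ along a γ` and `(along a γ).coeff (i d) = c`. For
`a ∈ I ^ i`, `I = span (range f)`: `Submodule.pow_induction_on_left'` (or induction on `i`): `P 0 a` with
`c = eval p a` (`LF.coeff_along_zero`, `bp γ = p`); `P` is additive; if `b ∈ I`, `P i a`, then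
`P (i + 1) (b * a)`: `b = ∑ g_j f_j` (`Ideal.mem_span_range_iff_exists_fun`), `X ^ d ∣ along b γ` with
coefficient `d` equal to `∑ eval p g_j * y j`, and the coefficient `(i + 1) d` of a product of
`X ^ d * u` and `X ^ (i d) * v` is `u (0) v (0)`.

`exists_leading`: Let `γ ∈ CT f p y d`, `d > 0`. `TO f d γ` gives `OrdGe I d γ` (`ordGe_iff`, HY/A2), so
`OrdGe (span (range (mon m))) d γ` (`ordGe_red_iff`), `TO (mon m) d γ`; let `z = vec (mon m) d γ`. For
`g = h * mon m l`: `along g γ = X ^ d * u`, `u (0) = eval p h * z l =: w`. Coefficient `n d` of the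
integral equation `g ^ n + ∑ a_i g ^ (n - i) = 0` (along `γ`): `w ^ n + ∑ c_i w ^ (n - i) = 0` with
the constants `c_i` of `lead_const` for `a_i ∈ I ^ i`: a monic polynomial which depends only on `p`, `y`,
`l`. So `z l` is in a finite set `R_l`. Moreover `h * f j ∈ span (range (mon m))`,
`h * f j = ∑ G_jl * mon m l`, gives `eval p h * y j = ∑_l eval p (G j l) * z l`.
`Zs` = the set of the `z`, `z l ∈ R_l` for all `l`, with these linear equations (finite,
`Set.Finite.pi`). Conversely, if `γ ∈ CT (mon m) p z d`, `z ∈ Zs`: `TO f d γ` (`ordGe_red_iff`), and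
`eval p h * vec f d γ j = ∑_l eval p (G j l) * z l = eval p h * y j`.
-/

open MvPolynomial

namespace MotMono
namespace NW

open CN HY

variable {N r s : ℕ}

private theorem b3_add {n : ℕ} (a b : MvPolynomial (Fin N) ℂ) (γ : Fin N × Fin n → ℂ) :
    along (a + b) γ = along a γ + along b γ := by simp [along]

private theorem b3_mul {n : ℕ} (a b : MvPolynomial (Fin N) ℂ) (γ : Fin N × Fin n → ℂ) :
    along (a * b) γ = along a γ * along b γ := by simp [along]

private theorem b3_pow {n : ℕ} (a : MvPolynomial (Fin N) ℂ) (k : ℕ) (γ : Fin N × Fin n → ℂ) :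
    along (a ^ k) γ = along a γ ^ k := by simp [along]

private theorem b3_sum {ι : Type*} {n : ℕ} (t : Finset ι) (a : ι → MvPolynomial (Fin N) ℂ)
    (γ : Fin N × Fin n → ℂ) : along (∑ i ∈ t, a i) γ = ∑ i ∈ t, along (a i) γ := by simp [along]

private theorem b3_zero {n : ℕ} (γ : Fin N × Fin n → ℂ) :
    along (0 : MvPolynomial (Fin N) ℂ) γ = 0 := by simp [along]

private theorem b3_coeff (a : MvPolynomial (Fin N) ℂ) {d : ℕ} (γ : Fin N × Fin (d + 1) → ℂ) :
    (along a γ).coeff 0 = eval (bp γ) a := LF.coeff_along_zero a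

private theorem b3_TO {n : ℕ} (f : Fin r → MvPolynomial (Fin N) ℂ) (m : ℕ)
    (γ : Fin N × Fin n → ℂ) (h : TO f m γ) (j : Fin r) :
    ∃ u : Polynomial ℂ, along (f j) γ = Polynomial.X ^ m * u ∧ u.coeff 0 = vec f m γ j := by
  obtain ⟨u, hu⟩ := Polynomial.X_pow_dvd_iff.2 (h j)
  refine ⟨u, hu, ?_⟩
  unfold vec
  rw [hu, Polynomial.coeff_X_pow_mul', if_pos le_rfl, Nat.sub_self]

/-- the leading coefficient is constant -/
private def LC (f : Fin r → MvPolynomial (Fin N) ℂ) (p : Fin N → ℂ) (y : Fin r → ℂ) (i : ℕ)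
    (a : MvPolynomial (Fin N) ℂ) : Prop :=
  ∃ c : ℂ, ∀ d, 0 < d → ∀ γ ∈ CT f p y d, ∃ u : Polynomial ℂ,
    along a γ = Polynomial.X ^ (i * d) * u ∧ u.coeff 0 = c

private theorem lc_zero (f : Fin r → MvPolynomial (Fin N) ℂ) (p : Fin N → ℂ) (y : Fin r → ℂ)
    (a : MvPolynomial (Fin N) ℂ) : LC f p y 0 a := by
  refine ⟨eval p a, fun d _ γ hγ => ⟨along a γ, by simp, ?_⟩⟩
  rw [b3_coeff, hγ.1]

private theorem lc_add {f : Fin r → MvPolynomial (Fin N) ℂ} {p : Fin N → ℂ} {y : Fin r → ℂ}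
    {i : ℕ} {a b : MvPolynomial (Fin N) ℂ} (ha : LC f p y i a) (hb : LC f p y i b) :
    LC f p y i (a + b) := by
  obtain ⟨c, hc⟩ := ha
  obtain ⟨c', hc'⟩ := hb
  refine ⟨c + c', fun d hd γ hγ => ?_⟩
  obtain ⟨u, hu, hu'⟩ := hc d hd γ hγ
  obtain ⟨v, hv, hv'⟩ := hc' d hd γ hγ
  refine ⟨u + v, by rw [b3_add, hu, hv]; ring, by rw [Polynomial.coeff_add, hu', hv']⟩

private theorem lc_mul {f : Fin r → MvPolynomial (Fin N) ℂ} {p : Fin N → ℂ} {y : Fin r → ℂ}
    {i j : ℕ} {a b : MvPolynomial (Fin N) ℂ} (ha : LC f p y i a) (hb : LC f p y j b) :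
    LC f p y (i + j) (a * b) := by
  obtain ⟨c, hc⟩ := ha
  obtain ⟨c', hc'⟩ := hb
  refine ⟨c * c', fun d hd γ hγ => ?_⟩
  obtain ⟨u, hu, hu'⟩ := hc d hd γ hγ
  obtain ⟨v, hv, hv'⟩ := hc' d hd γ hγ
  refine ⟨u * v, by rw [b3_mul, hu, hv]; ring, by rw [Polynomial.mul_coeff_zero, hu', hv']⟩

private theorem lc_span (f : Fin r → MvPolynomial (Fin N) ℂ) (p : Fin N → ℂ) (y : Fin r → ℂ)
    (a : MvPolynomial (Fin N) ℂ) (ha : a ∈ Ideal.span (Set.range f)) : LC f p y 1 a := by
  refine Submodule.span_induction (p := fun a _ => LC f p y 1 a) ?_ ?_ ?_ ?_ ha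
  · rintro _ ⟨j, rfl⟩
    refine ⟨y j, fun d _ γ hγ => ?_⟩
    obtain ⟨u, hu, hu'⟩ := b3_TO f d γ hγ.2.1 j
    exact ⟨u, by rw [one_mul]; exact hu, by rw [hu', hγ.2.2]⟩
  · exact ⟨0, fun d _ γ _ => ⟨0, by rw [b3_zero, mul_zero], by simp⟩⟩
  · intro a b _ _ ha hb
    exact lc_add ha hb
  · intro b a _ ha
    have h := lc_mul (lc_zero f p y b) ha
    rw [zero_add] at h
    exact h

private theorem lc_pow (f : Fin r → MvPolynomial (Fin N) ℂ) (p : Fin N → ℂ) (y : Fin r → ℂ)
    (i : ℕ) : ∀ a ∈ Ideal.span (Set.range f) ^ i, LC f p y i a := by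
  induction i with
  | zero => exact fun a _ => lc_zero f p y a
  | succ i ih =>
    intro a ha
    rw [pow_succ] at ha
    refine Submodule.mul_induction_on ha ?_ ?_
    · intro b hb c hc
      exact lc_mul (ih b hb) (lc_span f p y c hc)
    · intro b c hb hc
      exact lc_add hb hc

theorem lead_const (f : Fin r → MvPolynomial (Fin N) ℂ) (p : Fin N → ℂ) (y : Fin r → ℂ) (i : ℕ)
    (a : MvPolynomial (Fin N) ℂ) (ha : a ∈ Ideal.span (Set.range f) ^ i) :
    ∃ c : ℂ, ∀ d, 0 < d → ∀ γ ∈ CT f p y d,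
      (Polynomial.X : Polynomial ℂ) ^ (i * d) ∣ along a γ ∧ (along a γ).coeff (i * d) = c := by
  obtain ⟨c, hc⟩ := lc_pow f p y i a ha
  refine ⟨c, fun d hd γ hγ => ?_⟩
  obtain ⟨u, hu, hu'⟩ := hc d hd γ hγ
  refine ⟨⟨u, hu⟩, ?_⟩
  rw [hu, Polynomial.coeff_X_pow_mul', if_pos le_rfl, Nat.sub_self, hu']

/-- the linear equations for the leading coefficients -/
private theorem b3_lin {f : Fin r → MvPolynomial (Fin N) ℂ} {m : Fin s → (Fin N →₀ ℕ)}
    {h : MvPolynomial (Fin N) ℂ} {G : Fin r → Fin s → MvPolynomial (Fin N) ℂ}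
    (hG : ∀ j, h * f j = ∑ l, G j l * mon m l) {d : ℕ} (γ : Fin N × Fin (d + 1) → ℂ)
    (h1 : TO f d γ) (h2 : TO (mon m) d γ) (j : Fin r) :
    eval (bp γ) h * vec f d γ j = ∑ l, eval (bp γ) (G j l) * vec (mon m) d γ l := by
  obtain ⟨u, hu, hu'⟩ := b3_TO f d γ h1 j
  choose v hv hv' using b3_TO (mon m) d γ h2
  have e := congrArg (fun a => along a γ) (hG j)
  rw [b3_mul, b3_sum, hu] at e
  simp only [b3_mul, hv] at e
  have e2 : (Polynomial.X : Polynomial ℂ) ^ d * (along h γ * u) =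
      Polynomial.X ^ d * ∑ l, along (G j l) γ * v l := by
    rw [Finset.mul_sum, mul_left_comm, e]
    exact Finset.sum_congr rfl fun l _ => by ring
  have e3 := mul_left_cancel₀ (pow_ne_zero d Polynomial.X_ne_zero) e2
  have e4 := congrArg (fun q => Polynomial.coeff q 0) e3
  simp only [Polynomial.mul_coeff_zero, Polynomial.finsetSum_coeff, b3_coeff, hu', hv'] at e4
  exact e4

theorem exists_leading (f : Fin r → MvPolynomial (Fin N) ℂ) (m : Fin s → (Fin N →₀ ℕ))
    (h : MvPolynomial (Fin N) ℂ) (hI : RedAt (Ideal.span (Set.range f)) m h) (p : Fin N → ℂ)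
    (hp : eval p h ≠ 0) (y : Fin r → ℂ) :
    ∃ Zs : Finset (Fin s → ℂ), ∀ d, 0 < d → ∀ γ : Fin N × Fin (d + 1) → ℂ,
      γ ∈ CT f p y d ↔ ∃ z ∈ Zs, γ ∈ CT (mon m) p z d := by
  classical
  -- the linear equations
  have hG : ∀ j, ∃ G : Fin s → MvPolynomial (Fin N) ℂ, h * f j = ∑ l, G l * mon m l := by
    intro j
    have h1 := hI.1 (f j) (Ideal.subset_span ⟨j, rfl⟩)
    obtain ⟨G, hG⟩ := (Ideal.mem_span_range_iff_exists_fun).1 h1
    exact ⟨G, hG.symm⟩
  choose G hG using hG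
  -- the integral equations
  have hint : ∀ l, ∃ R : Polynomial ℂ, R ≠ 0 ∧ ∀ d, 0 < d → ∀ γ ∈ CT f p y d,
      TO (mon m) d γ → R.eval (eval p h * vec (mon m) d γ l) = 0 := by
    intro l
    obtain ⟨n, a, hn, ha, heq⟩ := hI.2 l
    choose c hc using fun i => lc_pow f p y i (a i) (ha i)
    refine ⟨Polynomial.X ^ n + ∑ i ∈ Finset.Icc 1 n, Polynomial.C (c i) * Polynomial.X ^ (n - i),
      ?_, ?_⟩
    · intro h0
      have h1 := congrArg (fun q => Polynomial.coeff q n) h0
      simp only [Polynomial.coeff_add, Polynomial.finsetSum_coeff, Polynomial.coeff_C_mul,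
        Polynomial.coeff_X_pow, if_true, Polynomial.coeff_zero] at h1
      rw [Finset.sum_eq_zero, add_zero] at h1
      · exact one_ne_zero h1
      · intro i hi
        rw [Finset.mem_Icc] at hi
        rw [if_neg (by omega), mul_zero]
    · intro d hd γ hγ hTO
      obtain ⟨v, hv, hv'⟩ := b3_TO (mon m) d γ hTO l
      choose u hu hu' using fun i => hc i d hd γ hγ
      have e := congrArg (fun a => along a γ) heq
      rw [b3_add, b3_pow, b3_sum, b3_zero, b3_mul, hv] at e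
      have e2 : (Polynomial.X : Polynomial ℂ) ^ (n * d) * ((along h γ * v) ^ n +
          ∑ i ∈ Finset.Icc 1 n, u i * (along h γ * v) ^ (n - i)) = 0 := by
        rw [← e, mul_add, Finset.mul_sum]
        congr 1
        · ring
        · refine Finset.sum_congr rfl fun i hi => ?_
          rw [Finset.mem_Icc] at hi
          rw [b3_mul, b3_pow, b3_mul, hv, hu]
          obtain ⟨k, rfl⟩ : ∃ k, n = i + k := ⟨n - i, by omega⟩
          rw [Nat.add_sub_cancel_left]
          ring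
      have e3 := (mul_eq_zero.1 e2).resolve_left (pow_ne_zero _ Polynomial.X_ne_zero)
      have e4 := congrArg (fun q => Polynomial.eval 0 q) e3
      have k1 : ∀ i, (u i).eval 0 = c i := fun i => by
        rw [← Polynomial.coeff_zero_eq_eval_zero]
        exact hu' i
      have k2 : v.eval 0 = vec (mon m) d γ l := by
        rw [← Polynomial.coeff_zero_eq_eval_zero]
        exact hv'
      have k3 : (along h γ).eval 0 = eval p h := by
        rw [← Polynomial.coeff_zero_eq_eval_zero, b3_coeff, hγ.1]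
      simp only [Polynomial.eval_add, Polynomial.eval_pow, Polynomial.eval_finsetSum,
        Polynomial.eval_mul, Polynomial.eval_zero, k1, k2, k3] at e4
      simp only [Polynomial.eval_add, Polynomial.eval_pow, Polynomial.eval_X,
        Polynomial.eval_finsetSum, Polynomial.eval_mul, Polynomial.eval_C]
      exact e4
  choose R hR0 hR using hint
  have hfin : {z : Fin s → ℂ | (∀ l, z l ∈ {x : ℂ | (R l).eval (eval p h * x) = 0}) ∧
      ∀ j, eval p h * y j = ∑ l, eval p (G j l) * z l}.Finite := by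
    refine Set.Finite.subset (Set.Finite.pi' (t := fun l => {x : ℂ | (R l).eval (eval p h * x) = 0})
      fun l => ?_) fun z hz => hz.1
    have h1 : {x : ℂ | (R l).eval (eval p h * x) = 0} ⊆
        (fun x => eval p h * x) ⁻¹' {w : ℂ | (R l).eval w = 0} := fun x hx => hx
    refine Set.Finite.subset (Set.Finite.preimage ?_ ?_) h1
    · exact fun x _ x' _ hx => mul_left_cancel₀ hp hx
    · have h2 := Polynomial.finite_setOfPred_isRoot (hR0 l)
      exact h2
  refine ⟨hfin.toFinset, fun d hd γ => ?_⟩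
  constructor
  · intro hγ
    have h1 : OrdGe (Ideal.span (Set.range f)) d γ := (ordGe_iff f d γ).2 hγ.2.1
    have hb : eval (bp γ) h ≠ 0 := by rw [hγ.1]; exact hp
    have h2 := (ordGe_red_iff _ m h hI γ hb d).1 h1
    have h3 : TO (mon m) d γ := (ordGe_iff (mon m) d γ).1 h2
    refine ⟨vec (mon m) d γ, ?_, hγ.1, h3, rfl⟩
    rw [Set.Finite.mem_toFinset]
    refine ⟨fun l => hR l d hd γ hγ h3, fun j => ?_⟩
    have h4 := b3_lin hG γ hγ.2.1 h3 j
    rw [hγ.1, hγ.2.2] at h4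
    exact h4
  · rintro ⟨z, hz, hγ⟩
    rw [Set.Finite.mem_toFinset] at hz
    have h1 : OrdGe (Ideal.span (Set.range (mon m))) d γ := (ordGe_iff (mon m) d γ).2 hγ.2.1
    have hb : eval (bp γ) h ≠ 0 := by rw [hγ.1]; exact hp
    have h2 := (ordGe_red_iff _ m h hI γ hb d).2 h1
    have h3 : TO f d γ := (ordGe_iff f d γ).1 h2
    refine ⟨hγ.1, h3, ?_⟩
    funext j
    have h4 := b3_lin hG γ h3 hγ.2.1 j
    rw [hγ.1, hγ.2.2] at h4
    have h5 := hz.2 j
    rw [← h5] at h4
    exact mul_left_cancel₀ hp h4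

end NW
end MotMono
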