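import Pool.Agent.Lib.MP_4e5fcd_ag.NW.A4
import Pool.Agent.Lib.MP_4e5fcd_ag.NW.B3
import Pool.Agent.Lib.MP_4e5fcd_ag.HY.C2
import Pool.Agent.Lib.MP_4e5fcd_ag.HY.C3

/-!
# NW-B4: visible values and periods

`chi_sum`: the sets `CT (mon m) p z d` are disjoint for different `z` (`z = vec (mon m) d γ`),
constructible; `cls_biUnion` with the set of `exists_leading`.

`perAt_red`: `I = span (range f)`. Let `M` be a period of the monomial ideal at `p`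
(`perT_of_perAt`, HY/A2). `perAt_of_perT`: for `y ≠ 0`: `χ (CT f p y d) = ∑_{z ∈ Zs} χ (CT (mon m) p z d)`.
Replace `Zs` by its elements `z ≠ 0`: if `0 ∈ Zs`: then all `χ (CT (mon m) p 0 d) = 0`, because
`CT (mon m) p 0 d = ∅`: for `γ` in it `γ ∈ CT f p y d` and, by `ordGe_red_iff` for the level `d + 1`,
`y = vec f d γ = 0`. For `z ≠ 0`: period `M`.

`vis_red`: `sum_ne_zero` (HY/C2) for the tuple `mon m`: `lam ^ M = 1`, `z ≠ 0` with
`S z = ∑_{d ∈ Icc 1 M} lam ^ d χ (CT (mon m) p z d) ≠ 0`. Some `CT (mon m) p z d`, `1 ≤ d ≤ M`, is not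
empty; `γ` in it; `OrdGe I d γ`; `y = vec f d γ`, `γ ∈ CT f p y d`, `y ≠ 0` (otherwise `OrdGe I (d+1) γ`,
so `OrdGe` of the monomial ideal, so `z = 0`). Let `Zs` be from `exists_leading` for `y`; `z ∈ Zs` as
`γ ∈ CT (mon m) p z' d` for a `z' ∈ Zs`, `z' = vec (mon m) d γ = z`. Suppose `¬ Vis χ I p lam`: by
`sum_eq_zero` (HY/C2), `∑_{d ∈ Icc 1 M} lam ^ d χ (CT f p y d) = 0 = ∑_{z' ∈ Zs} S z'`. By `chi_mon` (NW-A4)
every `S z'` is a real number `≥ 0` (`sum_nonneg'`): `χ (CT (mon m) p z' d) = if e ∣ d then c else 0`; if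
`c ≠ 0`, then `e ∣ M` for `z' ≠ 0` (period `M`: `c = χ (… e) = χ (… gcd e M)`, so `e ∣ gcd e M`), and
`S z' = c ∑_{j=1}^{M/e} (lam ^ e) ^ j` is `c M / e` if `lam ^ e = 1` and `0` otherwise
(`(lam ^ e) ^ (M/e) = 1`); for `z' = 0` all sets are empty, as above. So `S z = 0`, contradiction.

`near_red`: points `p'` near `p` with `h ≠ 0`, `PerAt` (from `Per`), `Vis`; as `near_gen` (HY/C3).
`per_red`: `h * h'`.
-/

open MvPolynomial

namespace MotMono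
namespace NW

open CN HY

variable {N r s : ℕ}

/-- the ideal vanishes to one order more if the leading coefficients vanish -/
private theorem b4_TO_succ {n : ℕ} (f : Fin r → MvPolynomial (Fin N) ℂ) {d : ℕ}
    {γ : Fin N × Fin n → ℂ} (h : TO f d γ) (hv : vec f d γ = 0) : TO f (d + 1) γ := by
  intro j l hl
  rcases Nat.lt_succ_iff_lt_or_eq.1 hl with h1 | h1
  · exact h j l h1
  · rw [h1]
    exact congrFun hv j

private theorem b4_ne (f : Fin r → MvPolynomial (Fin N) ℂ) (m : Fin s → (Fin N →₀ ℕ))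
    (h : MvPolynomial (Fin N) ℂ) (hI : RedAt (Ideal.span (Set.range f)) m h) (p : Fin N → ℂ)
    (hp : eval p h ≠ 0) {y : Fin r → ℂ} (hy : y ≠ 0) {d : ℕ} {γ : Fin N × Fin (d + 1) → ℂ}
    (hγ : γ ∈ CT f p y d) : γ ∉ CT (mon m) p 0 d := by
  rintro ⟨h1, h2, h3⟩
  apply hy
  have h4 := (ordGe_iff (mon m) (d + 1) γ).2 (b4_TO_succ (mon m) h2 h3)
  have h5 := (ordGe_red_iff (Ideal.span (Set.range f)) m h hI γ (by rw [h1]; exact hp) (d + 1)).2 h4
  have h6 := (ordGe_iff f (d + 1) γ).1 h5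
  funext j
  rw [← hγ.2.2]
  exact h6 j d (Nat.lt_succ_self d)

theorem chi_sum (χ : K0 →+* ℤ) (f : Fin r → MvPolynomial (Fin N) ℂ) (m : Fin s → (Fin N →₀ ℕ))
    (h : MvPolynomial (Fin N) ℂ) (hI : RedAt (Ideal.span (Set.range f)) m h) (p : Fin N → ℂ)
    (hp : eval p h ≠ 0) (y : Fin r → ℂ) (hy : y ≠ 0) :
    ∃ Zs : Finset (Fin s → ℂ), (∀ z ∈ Zs, z ≠ 0) ∧
      (∀ d, 0 < d → ∀ γ : Fin N × Fin (d + 1) → ℂ,
        γ ∈ CT f p y d ↔ ∃ z ∈ Zs, γ ∈ CT (mon m) p z d) ∧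
      ∀ d, 0 < d → χ (cls (CT f p y d)) = ∑ z ∈ Zs, χ (cls (CT (mon m) p z d)) := by
  classical
  obtain ⟨Z0, hZ0⟩ := exists_leading f m h hI p hp y
  have hmem : ∀ d, 0 < d → ∀ γ : Fin N × Fin (d + 1) → ℂ,
      γ ∈ CT f p y d ↔ ∃ z ∈ Z0.filter (fun z => z ≠ 0), γ ∈ CT (mon m) p z d := by
    intro d hd γ
    constructor
    · intro hγ
      obtain ⟨z, hz, hz'⟩ := (hZ0 d hd γ).1 hγ
      refine ⟨z, Finset.mem_filter.2 ⟨hz, ?_⟩, hz'⟩
      rintro rfl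
      exact b4_ne f m h hI p hp hy hγ hz'
    · rintro ⟨z, hz, hz'⟩
      exact (hZ0 d hd γ).2 ⟨z, (Finset.mem_filter.1 hz).1, hz'⟩
  refine ⟨Z0.filter (fun z => z ≠ 0), fun z hz => (Finset.mem_filter.1 hz).2, hmem, fun d hd => ?_⟩
  have h1 : CT f p y d = ⋃ z ∈ Z0.filter (fun z => z ≠ 0), CT (mon m) p z d := by
    ext γ
    rw [hmem d hd γ]
    simp only [Set.mem_iUnion, exists_prop]
  rw [h1, cls_biUnion _ (fun z _ => constr_CT (mon m) p z d) ?_, map_sum]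
  intro z _ z' _ hne
  refine Set.disjoint_left.2 fun γ hγ hγ' => hne ?_
  rw [← hγ.2.2, ← hγ'.2.2]

theorem perAt_red {χ : K0 →+* ℤ} (hχ : IsEulerCharF χ) (I : Ideal (MvPolynomial (Fin N) ℂ))
    (m : Fin s → (Fin N →₀ ℕ)) (h : MvPolynomial (Fin N) ℂ) (hI : RedAt I m h) (p : Fin N → ℂ)
    (hp : eval p h ≠ 0) (hP : PerAt χ (Ideal.span (Set.range (mon m))) p) : PerAt χ I p := by
  obtain ⟨r, f, hf⟩ := Submodule.fg_iff_exists_fin_generating_family.1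
    (IsNoetherian.noetherian (R := MvPolynomial (Fin N) ℂ) I)
  have hf' : Ideal.span (Set.range f) = I := hf
  subst hf'
  obtain ⟨M, hM, hM'⟩ := perT_of_perAt (mon m) p hP
  refine perAt_of_perT f p hM fun v hv d hd => ?_
  obtain ⟨Zs, hZ, _, hs⟩ := chi_sum χ f m h hI p hp v hv
  rw [hs d hd, hs (Nat.gcd d M) (Nat.gcd_pos_of_pos_left _ hd)]
  exact Finset.sum_congr rfl fun z hz => hM' z (hZ z hz) d hd

end NW
end MotMono
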