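import Pool.Agent.Lib.MP_4e5fcd_ag.NW.Defs
import Pool.Agent.Lib.MP_4e5fcd_ag.HY.Base

/-!
# NW-Base: notation for the proof

`mon m`: the monomials `x ^ (m l)`. `Wt m p z w`: weights `w` of the variables, `0` for the variables
with `p i ≠ 0`, for which the monomials `x ^ (m l)` with `z l ≠ 0` have the weight `0`.
`Mov m p z i`: some such weight is not `0` at `i`.
`RedAt I m h`: the data of `MonClosure`, without conditions at the origin.
-/

open MvPolynomial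

namespace MotMono
namespace NW

open CN HY

/-- the monomials `x ^ (m l)` -/
noncomputable def mon {N s : ℕ} (m : Fin s → (Fin N →₀ ℕ)) : Fin s → MvPolynomial (Fin N) ℂ :=
  fun l => monomial (m l) 1

/-- weights of the variables which do not change the monomials with `z l ≠ 0` -/
def Wt {N s : ℕ} (m : Fin s → (Fin N →₀ ℕ)) (p : Fin N → ℂ) (z : Fin s → ℂ) (w : Fin N → ℤ) :
    Prop :=
  (∀ i, p i ≠ 0 → w i = 0) ∧ ∀ l, z l ≠ 0 → ∑ i, w i * (m l i : ℤ) = 0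

/-- some weight is not `0` at `i` -/
def Mov {N s : ℕ} (m : Fin s → (Fin N →₀ ℕ)) (p : Fin N → ℂ) (z : Fin s → ℂ) (i : Fin N) : Prop :=
  ∃ w, Wt m p z w ∧ w i ≠ 0

/-- `I` and the ideal `M` of the monomials `x ^ (m l)` have the same integral closure where `h` does
not vanish, and `h I ⊆ M` -/
def RedAt {N s : ℕ} (I : Ideal (MvPolynomial (Fin N) ℂ)) (m : Fin s → (Fin N →₀ ℕ))
    (h : MvPolynomial (Fin N) ℂ) : Prop :=
  (∀ f ∈ I, h * f ∈ Ideal.span (Set.range (mon m))) ∧ ∀ l, IntOver I (h * mon m l)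

/-- jets whose coordinate `i` is `0` for `i ∈ J` and starts with `b i t ^ (a i)` for `i ∉ J` -/
def DD {N : ℕ} (d : ℕ) (J : Set (Fin N)) (a : Fin N → ℕ) (b : Fin N → ℂ) :
    Set (Fin N × Fin (d + 1) → ℂ) :=
  {γ | (∀ i ∈ J, ∀ l, γ (i, l) = 0) ∧ ∀ i, i ∉ J → ∀ l : Fin (d + 1),
    ((l : ℕ) < a i → γ (i, l) = 0) ∧ ((l : ℕ) = a i → γ (i, l) = b i)}

/-- possible orders `a` and leading coefficients `b` of the contact `d`-jets (of the monomials, at `p`,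
with the leading coefficients `z`) whose coordinates `i` with `Mov m p z i` are `0` -/
def Lead {N s : ℕ} (m : Fin s → (Fin N →₀ ℕ)) (p : Fin N → ℂ) (z : Fin s → ℂ) (d : ℕ)
    (a : Fin N → ℕ) (b : Fin N → ℂ) : Prop :=
  (∀ i, b i ≠ 0) ∧ (∀ i, Mov m p z i → a i = 0 ∧ b i = 1) ∧ (∀ i, p i ≠ 0 → a i = 0 ∧ b i = p i) ∧
  (∀ i, p i = 0 → ¬ Mov m p z i → 0 < a i ∧ a i ≤ d) ∧
  (∀ l, z l ≠ 0 → (∀ i, Mov m p z i → m l i = 0) ∧ ∑ i, a i * m l i = d ∧
    ∏ i, b i ^ m l i = z l) ∧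
  (∀ l, z l = 0 → (∃ i, Mov m p z i ∧ m l i ≠ 0) ∨ d < ∑ i, a i * m l i)

end NW
end MotMono
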