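import Pool.Agent.Lib.MP_4e5fcd_ag.NW.Base
import Pool.Agent.Lib.MP_4e5fcd_ag.HZ.P
import Pool.Agent.Lib.MP_4e5fcd_ag.HY.D1

/-!
# NW-C0: the condition at `s₀ = -N/d` for ideals generated by forms of one degree
-/

open MvPolynomial

namespace MotMono
namespace NW

open CN TV

private theorem c0_expo_pow {s₀ : ℚ} {e : ℕ} (h : ∃ z : ℤ, s₀ * e = z) : expo s₀ ^ e = 1 := by
  obtain ⟨z, hz⟩ := h
  rw [expo, ← Complex.exp_nat_mul]
  have hz' : (s₀ : ℂ) * e = z := by exact_mod_cast hz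
  have e1 : (e : ℂ) * (2 * Real.pi * Complex.I * (s₀ : ℂ)) = (z : ℂ) * (2 * Real.pi * Complex.I) := by
    linear_combination (2 * Real.pi * Complex.I) * hz'
  rw [e1, Complex.exp_int_mul_two_pi_mul_I]

private theorem c0_visDeg {χ : K0 →+* ℤ} {N d : ℕ} (hd : 0 < d)
    (F : Set (MvPolynomial (Fin N) ℂ)) (hF : ∀ f ∈ F, f.IsHomogeneous d)
    (y : MvPolynomial (Fin N) ℂ → ℂ) (hy : ∃ f ∈ F, y f ≠ 0)
    (hχy : χ (cls {x | ∀ f ∈ F, eval x f = y f}) ≠ 0) : VisDeg χ (Ideal.span F) d := by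
  have e1 : Ideal.span F = Ideal.span (F \ {0}) := (Ideal.span_sdiff_singleton_zero).symm
  have hF' : ∀ f ∈ F \ {0}, f.totalDegree = d := fun f hf => (hF f hf.1).totalDegree hf.2
  -- the fibre is not empty
  have hne : {x : Fin N → ℂ | ∀ f ∈ F, eval x f = y f}.Nonempty := by
    by_contra h
    rw [Set.not_nonempty_iff_eq_empty] at h
    exact hχy (by rw [h, cls_empty, map_zero])
  obtain ⟨x₀, hx₀⟩ := hne
  have h0 : (0 : MvPolynomial (Fin N) ℂ) ∈ F → y 0 = 0 := by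
    intro h
    have := hx₀ 0 h
    rw [map_zero] at this
    exact this.symm
  obtain ⟨f₀, hf₀, hyf₀⟩ := hy
  have hf₀0 : f₀ ≠ 0 := by
    rintro rfl
    exact hyf₀ (h0 hf₀)
  rw [e1]
  refine VisDeg.here (F \ {0}) d (fun f hf => ⟨hf.2, ?_, ?_⟩) y
    ⟨f₀, ⟨hf₀, hf₀0⟩, hF' _ ⟨hf₀, hf₀0⟩, hyf₀⟩ ?_
  · rw [hF' f hf]
    exact hd
  · rw [hF' f hf]
    exact hF f hf.1
  · have e2 : fib (F \ {0}) d y = {x | ∀ f ∈ F, eval x f = y f} := by
      ext x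
      constructor
      · intro hx f hf
        by_cases hf0 : f = 0
        · subst hf0
          rw [map_zero, h0 hf]
        · exact (hx f ⟨hf, hf0⟩).2 (hF' f ⟨hf, hf0⟩)
      · intro hx f hf
        exact ⟨fun h => absurd (hF' f hf) h.ne, fun _ => hx f hf.1⟩
    rw [e2]
    exact hχy

theorem near_cone {χ : K0 →+* ℤ} (hχ : IsEulerCharF χ) (s₀ : ℚ) {N : ℕ}
    (F : Set (MvPolynomial (Fin N) ℂ)) (d : ℕ) (hd : 0 < d) (hF : ∀ f ∈ F, f.IsHomogeneous d)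
    (h : s₀ = -(N : ℚ) / d)
    (hs : (∃ z : ℤ, s₀ = z) ∨ χ (cls (projCompl F)) ≠ 0 ∨
      (∃ y : MvPolynomial (Fin N) ℂ → ℂ, (∃ f ∈ F, y f ≠ 0) ∧
        χ (cls {x | ∀ f ∈ F, eval x f = y f}) ≠ 0) ∨
      (∃ g : Fin N → MvPolynomial (Fin N) ℂ, (∀ i, g i ∈ F) ∧ AlgebraicIndependent ℂ g) ∨
      ∃ p : Fin N → ℂ, p ≠ 0 ∧ ∃ y : ConePoint (Ideal.span F) p, y.Nonzero ∧
        ∃ Z, IsZeta (fun m => χ (cls (contactArcs (Ideal.span F) p y m))) Z ∧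
          ZeroOrPole Z (Complex.exp (2 * Real.pi * Complex.I * s₀))) :
    (∃ z : ℤ, s₀ = z) ∨ CN.Near χ (Ideal.span F) 0 (expo s₀) := by
  have hint : ∃ z : ℤ, s₀ * (d : ℕ) = z := by
    refine ⟨-N, ?_⟩
    have hd' : (d : ℚ) ≠ 0 := by exact_mod_cast hd.ne'
    rw [h]
    push_cast
    field_simp
  have hfib : (∃ y : MvPolynomial (Fin N) ℂ → ℂ, (∃ f ∈ F, y f ≠ 0) ∧
      χ (cls {x | ∀ f ∈ F, eval x f = y f}) ≠ 0) → CN.Near χ (Ideal.span F) 0 (expo s₀) := by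
    rintro ⟨y, hy, hχy⟩
    exact near_of_visDeg hχ _ d (c0_visDeg hd F hF y hy hχy) _ (c0_expo_pow hint)
  rcases hs with h1 | h1 | h1 | ⟨g, hgF, hg⟩ | ⟨p, hp, y, hy, Z, hZ, hP⟩
  · exact Or.inl h1
  · exact Or.inr (hfib (HZ.exists_fibre_of_proj hχ hd F hF h1))
  · exact Or.inr (hfib h1)
  · rcases Nat.eq_zero_or_pos N with hN | hN
    · left
      refine ⟨0, ?_⟩
      rw [h, hN]
      simp
    · exact Or.inr (near_of_visDeg hχ _ d (visDeg_of_algebraicIndependent χ hN hd F hF g hgF hg)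
        _ (c0_expo_pow hint))
  · refine Or.inr (near_scale hχ F (fun f hf => ⟨d, hF f hf⟩) p _ fun ε hε => ⟨p, ?_, ?_⟩)
    · simpa using hε
    · exact vis_of_cone y hy Z hZ hP

end NW
end MotMono
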