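import Pool.Agent.Lib.MP_4e5fcd_ag.NW.Base
import Pool.Agent.Lib.MP_4e5fcd_ag.CB.A4
import Pool.Agent.Lib.MP_4e5fcd_ag.HY.C3

/-!
# NW-C1: visible values and periods for `G + u v`

`near_hyp`: let `Vis χ (span {G}) p lam`, given by a jet `γ : Fin n × Fin (k + 1) → ℂ`, `1 ≤ k`. Let `γ'` be the
jet with the `x`-part `γ` and the `u`- and `v`-parts `0` (`Fin.addCases`), at `P = (p, 0, 0)`.
`along (hyp G) γ' = along G γ` (as in CB-A4), so `OrdGe (span {hyp G}) k γ'` and the leading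
coefficients agree. For `d > 0` the numbers `χ (cls (CA (span {hyp G}) P … d))` and
`χ (cls (CA (span {G}) p … d))` are equal: `CA_eq_CT` (HY/A2; `Set.range ![F] = {F}`) and `chi_CT_hyp` (CB-A4); so `Z`
is a zeta function for both (`IsZeta` uses the numbers for `d ≥ 1` only). `‖P‖ ≤ ‖p‖`.

-/

open MvPolynomial

namespace MotMono
namespace NW

open CN HY CB

variable {n : ℕ}

private theorem nc1_along (G : MvPolynomial (Fin n) ℂ) {m : ℕ} (z : Fin (n + 2) × Fin m → ℂ) :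
    along (hyp G) z = along G (fun q => z (Fin.castAdd 2 q.1, q.2)) +
      arc z (Fin.natAdd n 0) * arc z (Fin.natAdd n 1) := by
  unfold along hyp
  rw [map_add, map_mul, aeval_X, aeval_X, aeval_rename]
  rfl

private theorem nc1_arc_zero {N m : ℕ} (z : Fin N × Fin m → ℂ) (i : Fin N)
    (h : ∀ l, z (i, l) = 0) : arc z i = 0 := by
  unfold arc
  refine Finset.sum_eq_zero fun l _ => ?_
  rw [h, map_zero, zero_mul]

private theorem nc1_zeta {Λ Λ' : ℕ → ℤ} {Z : PowerSeries ℂ} (h : ∀ d, 0 < d → Λ d = Λ' d)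
    (hZ : IsZeta Λ Z) : IsZeta Λ' Z := by
  refine ⟨hZ.1, ?_⟩
  have h1 : (PowerSeries.mk fun d => if d = 0 then (0 : ℂ) else (Λ' d : ℂ)) =
      PowerSeries.mk fun d => if d = 0 then (0 : ℂ) else (Λ d : ℂ) := by
    congr 1
    funext d
    by_cases hd : d = 0
    · rw [if_pos hd, if_pos hd]
    · rw [if_neg hd, if_neg hd, h d (Nat.pos_of_ne_zero hd)]
  rw [h1]
  exact hZ.2

private theorem nc1_range {N : ℕ} (F : MvPolynomial (Fin N) ℂ) : Set.range ![F] = {F} := by
  simp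

/-- the extension of a jet by zero -/
private noncomputable def nc1_ext {m : ℕ} (γ : Fin n × Fin m → ℂ) : Fin (n + 2) × Fin m → ℂ :=
  fun q => Fin.addCases (motive := fun _ => ℂ) (fun a => γ (a, q.2)) (fun _ => 0) q.1

private theorem nc1_ext_left {m : ℕ} (γ : Fin n × Fin m → ℂ) (i : Fin n) (l : Fin m) :
    nc1_ext γ (Fin.castAdd 2 i, l) = γ (i, l) := by
  simp only [nc1_ext, Fin.addCases_left]

private theorem nc1_ext_right {m : ℕ} (γ : Fin n × Fin m → ℂ) (i : Fin 2) (l : Fin m) :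
    nc1_ext γ (Fin.natAdd n i, l) = 0 := by
  simp only [nc1_ext, Fin.addCases_right]

private theorem nc1_along_ext (G : MvPolynomial (Fin n) ℂ) {m : ℕ} (γ : Fin n × Fin m → ℂ) :
    along (hyp G) (nc1_ext γ) = along G γ := by
  rw [nc1_along, nc1_arc_zero _ _ (fun l => nc1_ext_right γ 0 l), zero_mul, add_zero]
  congr 1
  funext q
  exact nc1_ext_left γ q.1 q.2

theorem near_hyp {χ : K0 →+* ℤ} (hχ : IsEulerCharF χ) (G : MvPolynomial (Fin n) ℂ) {lam : ℂ}
    (hn : CN.Near χ (Ideal.span {G}) 0 lam) : CN.Near χ (Ideal.span {hyp G}) 0 lam := by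
  intro ε hε
  obtain ⟨p, hp, k, γ, hk, hb, ho, hne, Z, hZ, hZP⟩ := hn ε hε
  have ho1 : TO ![G] k γ := by
    rw [← nc1_range G, ordGe_iff] at ho
    exact ho
  have ho2 : TO ![hyp G] k (nc1_ext γ) := by
    intro j l hl
    rw [Subsingleton.elim j 0]
    show (along (hyp G) (nc1_ext γ)).coeff l = 0
    rw [nc1_along_ext]
    exact ho1 0 l hl
  have hvec : vec ![hyp G] k (nc1_ext γ) = vec ![G] k γ := by
    funext j
    rw [Subsingleton.elim j 0]
    show (along (hyp G) (nc1_ext γ)).coeff k = (along G γ).coeff k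
    rw [nc1_along_ext]
  have hv1 : vec ![G] k γ ≠ 0 := by
    rw [← nc1_range G] at hne
    exact (ne_iff ![G] k γ ho1).1 hne
  have hbl : (fun i => bp (nc1_ext γ) (Fin.castAdd 2 i)) = bp γ := by
    funext i
    exact nc1_ext_left γ i 0
  refine ⟨bp (nc1_ext γ), ?_, k, nc1_ext γ, hk, rfl, ?_, ?_, Z, ?_, hZP⟩
  · rw [sub_zero] at hp ⊢
    rw [pi_norm_lt_iff hε] at hp ⊢
    intro i
    induction i using Fin.addCases with
    | left i =>
      show ‖nc1_ext γ (Fin.castAdd 2 i, 0)‖ < ε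
      rw [nc1_ext_left]
      have h1 := hp i
      rw [← hb] at h1
      exact h1
    | right i =>
      show ‖nc1_ext γ (Fin.natAdd n i, 0)‖ < ε
      rw [nc1_ext_right, norm_zero]
      exact hε
  · rw [← nc1_range (hyp G), ordGe_iff]
    exact ho2
  · rw [← nc1_range (hyp G)]
    exact (ne_iff ![hyp G] k (nc1_ext γ) ho2).2 (by rw [hvec]; exact hv1)
  · refine nc1_zeta (fun d hd => ?_) hZ
    have h1 := CA_eq_CT ![G] γ ho1 d
    have h2 := CA_eq_CT ![hyp G] (nc1_ext γ) ho2 d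
    rw [nc1_range, hb] at h1
    rw [nc1_range] at h2
    rw [h1, h2, hvec, chi_CT_hyp hχ G (bp (nc1_ext γ)) (nc1_ext_right γ 0 0) (nc1_ext_right γ 1 0) _ hd,
      hbl, hb]

end NW
end MotMono
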