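import Pool.Agent.Lib.MP_4e5fcd_ag.NW.Base
import Pool.Agent.Lib.MP_4e5fcd_ag.CB.A3
import Pool.Agent.Lib.MP_4e5fcd_ag.CB.A4
import Pool.Agent.Lib.MP_4e5fcd_ag.HY.R0
import Pool.Agent.Lib.MP_4e5fcd_ag.HY.R4

/-!
# NW-C1b: periods for `G + u v`

Let `h` be from `Per χ (span {G}) 0`, `h' = rename (Fin.castAdd 2) h`. Let `P` be a point with
`h' (P) ≠ 0`, `p` its `x`-part, `h (p) ≠ 0`. Use `perAt_of_perT`, `perT_of_perAt` (HY/A2) with the tuples
`![hyp G]`, `![G]` (`Set.range ![F] = {F}`).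
If `P (natAdd n 0) = P (natAdd n 1) = 0`: a period of `G` at `p` is one of `hyp G` at `P`
(`chi_CT_hyp`, CB-A4; `gcd d M > 0`).
If `hyp G (P) ≠ 0`: `perAt_of_ne` (HY/R0).
Otherwise `P` is a smooth point of `hyp G`: `pderiv (natAdd n 1) (hyp G) = X (natAdd n 0)` or
`pderiv (natAdd n 0) (hyp G) = X (natAdd n 1)` is not `0` at `P`: `perAt_smooth`.
`perAt_smooth`: `perAt_chart` (HY/R0) with the chart of CB-A3 (`Chart (span {f}) (span {X 0}) …`, copy
the private lemmas of CB-A3, the point goes to `0`), and for `span {X 0}` in one variable all numbers are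
`1` (for `d ≥ 1` and a leading coefficient `w` the contact set is the one point
`(0, …, 0, w)`, `cls_singleton`), so the period is `1`.
-/

open MvPolynomial

namespace MotMono
namespace NW

open CN HY CB

variable {n : ℕ}

private theorem c1b_along_X {n : ℕ} (γ : Fin 1 × Fin (n + 1) → ℂ) :
    along (X 0) γ = arc γ 0 := by
  unfold along
  exact aeval_X _ _

private theorem c1b_coeff {n : ℕ} (γ : Fin 1 × Fin (n + 1) → ℂ) (l : Fin (n + 1)) :
    (along (X 0) γ).coeff (l : ℕ) = γ (0, l) := by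
  rw [c1b_along_X, a1_arc_coeff, dif_pos l.isLt]

private theorem c1b_chi_line (χ : K0 →+* ℤ) {n : ℕ} (γ₀ : Fin 1 × Fin (n + 1) → ℂ)
    (hbp : bp γ₀ = 0) (hord : OrdGe (Ideal.span {(X 0 : MvPolynomial (Fin 1) ℂ)}) n γ₀) {d : ℕ}
    (hd1 : 1 ≤ d) :
    χ (cls (CA (Ideal.span {(X 0 : MvPolynomial (Fin 1) ℂ)}) (bp γ₀)
      (fun f => (along f γ₀).coeff n) d)) = 1 := by
  have e : CA (Ideal.span {(X 0 : MvPolynomial (Fin 1) ℂ)}) (bp γ₀)
      (fun f => (along f γ₀).coeff n) d =
      {fun q : Fin 1 × Fin (d + 1) => if (q.2 : ℕ) = d then (along (X 0) γ₀).coeff n else 0} := by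
    ext γ
    rw [mem_CA_span _ _ hord, hbp, Set.mem_singleton_iff]
    constructor
    · rintro ⟨-, h3⟩
      obtain ⟨h4, h5⟩ := h3 _ rfl
      funext q
      obtain ⟨i, l⟩ := q
      obtain rfl : i = 0 := Subsingleton.elim _ _
      rw [← c1b_coeff γ l]
      dsimp only
      by_cases hl : (l : ℕ) = d
      · rw [if_pos hl, hl]
        exact h5
      · rw [if_neg hl]
        exact h4 _ (by omega)
    · rintro rfl
      refine ⟨?_, ?_⟩
      · funext i
        change (if ((0 : Fin (d + 1)) : ℕ) = d then _ else _) = (0 : ℂ)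
        rw [if_neg]
        simp only [Fin.val_zero]
        omega
      · rintro _ rfl
        refine ⟨fun l hl => ?_, ?_⟩
        · have h6 := c1b_coeff (fun q : Fin 1 × Fin (d + 1) =>
            if (q.2 : ℕ) = d then (along (X 0) γ₀).coeff n else 0) ⟨l, by omega⟩
          refine h6.trans ?_
          exact if_neg (by simp only; omega)
        · have h6 := c1b_coeff (fun q : Fin 1 × Fin (d + 1) =>
            if (q.2 : ℕ) = d then (along (X 0) γ₀).coeff n else 0) ⟨d, by omega⟩
          refine h6.trans ?_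
          exact if_pos rfl
  rw [e, cls_singleton, map_one]

private theorem c1b_perAt_line (χ : K0 →+* ℤ) :
    PerAt χ (Ideal.span {(X 0 : MvPolynomial (Fin 1) ℂ)}) 0 := by
  refine ⟨1, one_pos, fun n γ₀ _ hbp hord _ d hd => ?_⟩
  have h1 := c1b_chi_line χ γ₀ hbp hord (d := d) hd
  have h2 := c1b_chi_line χ γ₀ hbp hord (d := Nat.gcd d 1) (Nat.gcd_pos_of_pos_left _ hd)
  rw [hbp] at h1 h2
  rw [h1, h2]

theorem perAt_smooth {N : ℕ} {χ : K0 →+* ℤ} (hχ : IsEulerCharF χ) (f : MvPolynomial (Fin N) ℂ)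
    (p : Fin N → ℂ) (hf : eval p f = 0) (j : Fin N) (hj : eval p (pderiv j f) ≠ 0) :
    PerAt χ (Ideal.span {f}) p := by
  classical
  set u : Fin N → MvPolynomial (Fin N) ℂ :=
    Function.update (fun i => X i - C (p i)) j f with hu
  have huj : u j = f := by rw [hu, Function.update_self]
  have hc : Chart (Ideal.span {f}) (Ideal.span {(X 0 : MvPolynomial (Fin 1) ℂ)}) u
      (fun _ => j) 1 := by
    have hX : aeval (fun _ : Fin 1 => u j) (X 0 : MvPolynomial (Fin 1) ℂ) = f := by
      rw [aeval_X, huj]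
    refine ⟨Function.injective_of_subsingleton _, ?_, ?_⟩
    · intro g hg
      rw [one_mul]
      rw [Ideal.mem_span_singleton] at hg ⊢
      obtain ⟨c, rfl⟩ := hg
      rw [map_mul, hX]
      exact dvd_mul_right _ _
    · intro g hg
      rw [one_mul]
      rw [Ideal.mem_span_singleton] at hg
      obtain ⟨c, rfl⟩ := hg
      refine Ideal.mul_mem_right _ _ (Ideal.subset_span ⟨X 0, ?_, hX.symm⟩)
      exact Ideal.subset_span rfl
  have hJ : eval p (jacDet u) ≠ 0 := by
    have h2 : eval p (jacDet u) =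
        ((1 : Matrix (Fin N) (Fin N) ℂ).updateRow j (fun k => eval p (pderiv k f))).det := by
      unfold jacDet
      rw [RingHom.map_det]
      congr 1
      ext i k
      rw [RingHom.mapMatrix_apply, Matrix.map_apply, Matrix.of_apply]
      by_cases hij : i = j
      · subst hij
        rw [huj, Matrix.updateRow_self]
      · rw [Matrix.updateRow_ne hij, hu, Function.update_of_ne hij, map_sub, pderiv_X,
          pderiv_C, sub_zero, Matrix.one_apply, Pi.single_apply]
        by_cases hik : i = k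
        · subst hik
          simp
        · rw [if_neg hik, if_neg (fun h => hik h), map_zero]
    rw [h2, ← Matrix.cramer_transpose_apply, Matrix.transpose_one, Matrix.cramer_one]
    exact hj
  refine perAt_chart hχ hc p (by rw [map_one]; exact one_ne_zero) hJ ?_
  have hp : (fun i : Fin 1 => eval p (u ((fun _ => j) i))) = 0 := by
    funext i
    change eval p (u j) = 0
    rw [huj, hf]
  rw [hp]
  exact c1b_perAt_line χ

private theorem c1b_ne : (Fin.natAdd n 0 : Fin (n + 2)) ≠ Fin.natAdd n 1 := by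
  intro h
  have := congrArg Fin.val h
  simp at this

private theorem c1b_pd_rename (G : MvPolynomial (Fin n) ℂ) (b : Fin 2) :
    pderiv (Fin.natAdd n b) (rename (Fin.castAdd 2) G) = 0 := by
  refine pderiv_eq_zero_of_notMem_vars fun h => ?_
  classical
  obtain ⟨a, -, ha⟩ := Finset.mem_image.1 (vars_rename (Fin.castAdd 2) G h)
  have h2 := congrArg Fin.val ha
  have h3 := a.2
  simp at h2
  omega

theorem per_hyp {χ : K0 →+* ℤ} (hχ : IsEulerCharF χ) (G : MvPolynomial (Fin n) ℂ)
    (hp : Per χ (Ideal.span {G}) 0) : Per χ (Ideal.span {hyp G}) 0 := by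
  obtain ⟨h, h0, hP⟩ := hp
  have hr : ∀ {N : ℕ} (F : MvPolynomial (Fin N) ℂ), Set.range ![F] = {F} := by
    intro N F
    simp
  refine ⟨rename (Fin.castAdd 2) h, ?_, fun P hq => ?_⟩
  · rw [eval_rename]
    exact h0
  rw [eval_rename] at hq
  by_cases hev : eval P (hyp G) = 0
  swap
  · exact perAt_of_ne ⟨hyp G, Ideal.subset_span rfl, hev⟩
  have hpd0 : pderiv (Fin.natAdd n 1) (hyp G) = X (Fin.natAdd n 0) := by
    unfold hyp
    rw [map_add, c1b_pd_rename, pderiv_mul, pderiv_X_self, pderiv_X_of_ne c1b_ne]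
    ring
  have hpd1 : pderiv (Fin.natAdd n 0) (hyp G) = X (Fin.natAdd n 1) := by
    unfold hyp
    rw [map_add, c1b_pd_rename, pderiv_mul, pderiv_X_self, pderiv_X_of_ne (Ne.symm c1b_ne)]
    ring
  by_cases hu : P (Fin.natAdd n 0) = 0
  swap
  · exact perAt_smooth hχ (hyp G) P hev (Fin.natAdd n 1) (by rwa [hpd0, eval_X])
  by_cases hw : P (Fin.natAdd n 1) = 0
  swap
  · exact perAt_smooth hχ (hyp G) P hev (Fin.natAdd n 0) (by rwa [hpd1, eval_X])
  have h1 : PerAt χ (Ideal.span (Set.range ![G])) (fun i => P (Fin.castAdd 2 i)) := by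
    rw [hr G]
    exact hP _ hq
  obtain ⟨M, hM, h2⟩ := perT_of_perAt _ _ h1
  rw [← hr (hyp G)]
  refine perAt_of_perT _ _ hM fun v hv d hd => ?_
  rw [chi_CT_hyp hχ G P hu hw v hd, chi_CT_hyp hχ G P hu hw v (Nat.gcd_pos_of_pos_left _ hd)]
  exact h2 v hv d hd

end NW
end MotMono
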