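import Pool.Agent.Lib.MP_4e5fcd_ag.NW.B2
import Pool.Agent.Lib.MP_4e5fcd_ag.NW.B5
import Pool.Agent.Lib.MP_4e5fcd_ag.HY.R1
import Pool.Agent.Lib.MP_4e5fcd_ag.TV.V5

/-!
# NW-C2: ideals with monomial integral closure

`isProdLin_mon`: `monomial m 1 = ∏ i, X i ^ (m i)` is a product of linear forms: induction on `m`
(`Finsupp.induction`), or: the property holds for `1` (`u = 1`, `n = 0`), for `X i`
(`∑ i', C (if i' = i then 1 else 0) * X i'`) and for products (`Fin.append`).
Let `MonClosure I` be given by `s`, `m`, `h`; `RedAt I m h` (`mon m l = monomial (m l) 1`, `rfl`). The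
ideal `span (range (mon m))` satisfies the hypotheses of `ugood_lin` (TV/V5), `per_lin` (HY/R1):
`mon m ⟨0, _⟩ ≠ 0`, `eval 0 (mon m l) = 0` as `m l ≠ 0`. Then `near_red`, `per_red` (NW-B5), `ureg_red`
(NW-B2; `eval 0 (g * h) ≠ 0`).
-/

open MvPolynomial

namespace MotMono
namespace NW

open CN HY

variable {N : ℕ}

private theorem isProdLin_one : IsProdLin (1 : MvPolynomial (Fin N) ℂ) :=
  ⟨1, 0, fun _ _ => 0, by simp, by simp⟩

private theorem isProdLin_X_mul (i : Fin N) (f : MvPolynomial (Fin N) ℂ) (hf : IsProdLin f) :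
    IsProdLin (X i * f) := by
  classical
  obtain ⟨u, n, a, hu, rfl⟩ := hf
  refine ⟨u, n + 1, Fin.cons (fun i' => if i' = i then 1 else 0) a, hu, ?_⟩
  rw [Fin.prod_univ_succ]
  have h1 : ∑ i', C ((Fin.cons (fun i' => if i' = i then (1 : ℂ) else 0) a :
      Fin (n + 1) → Fin N → ℂ) 0 i') * X i' = (X i : MvPolynomial (Fin N) ℂ) := by
    rw [Finset.sum_eq_single i]
    · simp
    · intro b _ hb
      simp [hb]
    · intro h
      exact absurd (Finset.mem_univ i) h
  rw [h1]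
  simp only [Fin.cons_succ]
  ring

theorem isProdLin_mon {s : ℕ} (m : Fin s → (Fin N →₀ ℕ)) (l : Fin s) : IsProdLin (mon m l) := by
  classical
  unfold mon
  generalize m l = e
  induction e using Finsupp.induction_linear with
  | zero => exact isProdLin_one
  | add f g hf hg =>
    have h1 : (monomial (f + g) (1 : ℂ)) = monomial f 1 * monomial g 1 := by
      rw [monomial_mul, one_mul]
    rw [h1]
    obtain ⟨u, n, a, hu, hf⟩ := hf
    obtain ⟨v, n', b, hv, hg⟩ := hg
    refine ⟨u * v, n + n', Fin.append a b, ?_, ?_⟩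
    · rw [map_mul]
      exact mul_ne_zero hu hv
    · rw [hf, hg, Fin.prod_univ_add]
      simp only [Fin.append_left, Fin.append_right]
      ring
  | single i k =>
    induction k with
    | zero =>
      rw [Finsupp.single_zero]
      exact isProdLin_one
    | succ k ih =>
      have h1 : (monomial (Finsupp.single i (k + 1)) (1 : ℂ)) =
          X i * monomial (Finsupp.single i k) 1 := by
        rw [X, monomial_mul, one_mul, ← Finsupp.single_add, add_comm]
      rw [h1]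
      exact isProdLin_X_mul i _ ih

private theorem mon_ne_zero {s : ℕ} (m : Fin s → (Fin N →₀ ℕ)) (l : Fin s) : mon m l ≠ 0 := by
  unfold mon
  rw [Ne, monomial_eq_zero]
  exact one_ne_zero

private theorem eval_mon {s : ℕ} (m : Fin s → (Fin N →₀ ℕ)) (l : Fin s) (h : m l ≠ 0) :
    eval 0 (mon m l) = 0 := by
  unfold mon
  rw [eval_monomial, one_mul]
  obtain ⟨i, hi⟩ := Finsupp.ne_iff.1 h
  rw [Finsupp.prod]
  refine Finset.prod_eq_zero (i := i) (Finsupp.mem_support_iff.2 hi) ?_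
  simpa using hi

theorem ugood_newton {χ : K0 →+* ℤ} (hχ : IsEulerCharF χ) (s₀ : ℚ)
    (I : Ideal (MvPolynomial (Fin N) ℂ)) (h : MonClosure I) : TV.UGood χ s₀ I 0 := by
  obtain ⟨s, m, g, hs, hm, hg, hI, hint⟩ := h
  have hred : RedAt I m g := ⟨hI, hint⟩
  have hP : ∀ f ∈ Set.range (mon m), IsProdLin f := by
    rintro f ⟨l, rfl⟩
    exact isProdLin_mon m l
  have h0 : ∃ f ∈ Set.range (mon m), f ≠ 0 := ⟨_, ⟨⟨0, hs⟩, rfl⟩, mon_ne_zero m _⟩
  have h1 : ∀ f ∈ Set.range (mon m), eval 0 f = 0 := by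
    rintro f ⟨l, rfl⟩
    exact eval_mon m l (hm l)
  have hper := per_lin hχ _ hP h0 h1
  obtain ⟨h2, h3⟩ := TV.ugood_lin hχ s₀ _ hP h0 h1
  refine ⟨?_, near_red hχ I m g hred hg hper h3⟩
  rcases h2 with h2 | ⟨k, hk, hreg⟩
  · exact Or.inl (near_red hχ I m g hred hg hper h2)
  · refine Or.inr ⟨k * g, ?_, ?_⟩
    · rw [map_mul]
      exact mul_ne_zero hk hg
    · have h4 := ureg_red I m g k hred hreg
      exact h4

theorem per_newton {χ : K0 →+* ℤ} (hχ : IsEulerCharF χ) (I : Ideal (MvPolynomial (Fin N) ℂ))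
    (h : MonClosure I) : Per χ I 0 := by
  obtain ⟨s, m, g, hs, hm, hg, hI, hint⟩ := h
  have hred : RedAt I m g := ⟨hI, hint⟩
  have hP : ∀ f ∈ Set.range (mon m), IsProdLin f := by
    rintro f ⟨l, rfl⟩
    exact isProdLin_mon m l
  have h0 : ∃ f ∈ Set.range (mon m), f ≠ 0 := ⟨_, ⟨⟨0, hs⟩, rfl⟩, mon_ne_zero m _⟩
  have h1 : ∀ f ∈ Set.range (mon m), eval 0 f = 0 := by
    rintro f ⟨l, rfl⟩
    exact eval_mon m l (hm l)
  exact per_red hχ I m g hred hg (per_lin hχ _ hP h0 h1)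

end NW
end MotMono
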