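import Pool.Agent.Lib.MP_4e5fcd_ag.NW.C0
import Pool.Agent.Lib.MP_4e5fcd_ag.NW.C1
import Pool.Agent.Lib.MP_4e5fcd_ag.NW.C1b
import Pool.Agent.Lib.MP_4e5fcd_ag.NW.C2
import Pool.Agent.Lib.MP_4e5fcd_ag.CB.B8
import Pool.Agent.Lib.MP_4e5fcd_ag.HZ.M

/-!
# NW-D1: the theorem for the class `ClassUg`
-/

open MvPolynomial

namespace MotMono
namespace NW

open CN HY

variable {N : ℕ}

/-- an ideal generated by forms of one degree, all of whose dehomogenised germs are good -/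
theorem good_cone {χ : K0 →+* ℤ} (hχ : IsEulerCharF χ) (s₀ : ℚ) {N : ℕ}
    (F : Set (MvPolynomial (Fin (N + 1)) ℂ)) (d : ℕ) (hd : 0 < d) (hF : ∀ f ∈ F, f.IsHomogeneous d)
    (h0 : ∃ f ∈ F, f ≠ 0)
    (hloc : ∀ (i : Fin (N + 1)) (b : Fin N → ℂ), (∀ f ∈ F, eval b (dh i f) = 0) →
      TV.UGood χ s₀ (germ (Ideal.span (dh i '' F)) b) 0 ∧
        Per χ (germ (Ideal.span (dh i '' F)) b) 0)
    (hs : s₀ = -((N + 1 : ℕ) : ℚ) / d →
      (∃ z : ℤ, s₀ = z) ∨ CN.Near χ (Ideal.span F) 0 (expo s₀)) :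
    TV.UGood χ s₀ (Ideal.span F) 0 ∧ Per χ (Ideal.span F) 0 := by
  have key : ∀ c : Fin (N + 1) → ℂ, c ≠ 0 → (∀ f ∈ F, eval c f = 0) →
      TV.UGood χ s₀ (germ (Ideal.span F) c) 0 ∧ Per χ (germ (Ideal.span F) c) 0 := by
    intro c hc hz
    have h1 : ∃ i, c i ≠ 0 := by
      by_contra h
      push Not at h
      exact hc (funext h)
    obtain ⟨i, hi⟩ := h1
    obtain ⟨h2, h3⟩ := hloc i (fun j => c (i.succAbove j) / c i) fun f hf => by
      rw [HZ.eval_dh_div (hF f hf) i hi, hz f hf, mul_zero]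
    exact ⟨TV.ugood_dehom hχ s₀ F d hF i c hi h2, per_dehom hχ F d hF i c hi h3⟩
  refine ⟨TV.ugood_cone hχ s₀ hd F hF h0 (fun c hc hz =>
    TV.ugood_of_locPull hχ s₀ _ c _ (locPull_germ (Ideal.span F) c) (key c hc hz).1) hs,
    per_cone hχ hd F hF fun c hc hz =>
      per_of_locPull hχ _ c _ (locPull_germ (Ideal.span F) c) (key c hc hz).2⟩

theorem good_of_classU {χ : K0 →+* ℤ} (hχ : IsEulerCharF χ) {s₀ : ℚ}
    {I : Ideal (MvPolynomial (Fin N) ℂ)} (h : ClassU χ s₀ I) :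
    TV.UGood χ s₀ I 0 ∧ Per χ I 0 := by
  induction h with
  | two s₀ G hG h0 => exact ⟨TV.ugood_two hχ s₀ G hG h0, per_two hχ G hG⟩
  | lin s₀ P hP h0 h1 => exact ⟨TV.ugood_lin hχ s₀ P hP h0 h1, per_lin hχ P hP h0 h1⟩
  | newton s₀ I h => exact ⟨ugood_newton hχ s₀ I h, per_newton hχ I h⟩
  | three s₀ F d hd hF h0 hs =>
    have h1 : ClassT χ s₀ (Ideal.span F) := ClassT.three s₀ F d hd hF h0 hs
    have h2 := HZ.tameAt_of_classT hχ h1
    exact ⟨TV.ugood_of_tameAt hχ s₀ _ h2, per_of_tameAt hχ s₀ _ h2⟩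
  | pull s₀ I G h hG ih =>
    exact ⟨TV.ugood_of_locPull hχ s₀ I 0 G h ih.1, per_of_locPull hχ I 0 G h ih.2⟩
  | adj s₀ I h ih => exact ⟨TV.ugood_adj hχ s₀ I ih.1, per_adj hχ I ih.2⟩
  | pow s₀ I k hk h ih => exact ⟨TV.ugood_pow hχ s₀ I k hk ih.1, per_pow hχ I k hk ih.2⟩
  | box s₀ I J hI hJ ihI ihJ =>
    exact ⟨TV.ugood_box hχ s₀ I J ihI.1 ihJ.1, per_box hχ I J ihI.2 ihJ.2⟩
  | @cone s₀ N F d hd hF h0 hloc hs ih =>
    exact good_cone hχ s₀ F d hd hF h0 ih fun h => near_cone hχ s₀ F d hd hF h (hs h)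

theorem wx_of_good {χ : K0 →+* ℤ} {s₀ : ℚ} {I : Ideal (MvPolynomial (Fin N) ℂ)}
    (h : TV.UGood χ s₀ I 0 ∧ Per χ I 0) : WX χ s₀ I := by
  obtain ⟨⟨h1, h2⟩, h3⟩ := h
  refine ⟨?_, h2, h3⟩
  rcases h1 with h1 | ⟨g, hg, hr⟩
  · exact Or.inl h1
  · exact Or.inr (zmot_of_ureg I hg hr)

theorem eval_zero_of_near {χ : K0 →+* ℤ} (F : MvPolynomial (Fin N) ℂ) {lam : ℂ}
    (h : CN.Near χ (Ideal.span {F}) 0 lam) : eval 0 F = 0 := by
  by_contra hne
  obtain ⟨δ, hδ, hb⟩ := exists_ball hne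
  obtain ⟨p, hp, n, γ, hn, hbp, hord, -⟩ := h δ hδ
  rw [sub_zero] at hp
  apply hb p hp
  have h1 := hord F (Ideal.subset_span rfl) 0 hn
  rw [LF.coeff_along_zero] at h1
  rw [← hbp]
  exact h1

theorem wx_stab {χ : K0 →+* ℤ} (hχ : IsEulerCharF χ) (s₀ : ℚ) (F : MvPolynomial (Fin N) ℂ)
    (h : WX χ (s₀ + 1) (Ideal.span {F})) : WX χ s₀ (Ideal.span {CB.hyp F}) := by
  obtain ⟨h1, h2, h3⟩ := h
  have hone : CN.Near χ (Ideal.span {CB.hyp F}) 0 1 := near_hyp hχ F h2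
  refine ⟨?_, hone, per_hyp hχ F h3⟩
  rcases h1 with h1 | h1
  · rw [expo_add_one] at h1
    exact Or.inl (near_hyp hχ F h1)
  · by_cases hs : ∃ z : ℤ, s₀ = z
    · obtain ⟨z, hz⟩ := hs
      left
      have e : expo s₀ = 1 := by
        rw [expo, hz]
        have e1 : 2 * (Real.pi : ℂ) * Complex.I * (((z : ℚ)) : ℂ) =
            (z : ℂ) * (2 * Real.pi * Complex.I) := by
          push_cast
          ring
        rw [e1, Complex.exp_int_mul_two_pi_mul_I]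
      rw [e]
      exact hone
    · right
      have h4 := CB.polar_hyp' F (eval_zero_of_near F h2) (s₀ := s₀ + 1) (fun z hz => hs
        ⟨z - 1, by
          rw [Int.cast_sub, Int.cast_one, ← hz]
          ring⟩) h1
      rwa [add_sub_cancel_right] at h4

theorem wx_of_classUg {χ : K0 →+* ℤ} (hχ : IsEulerCharF χ) {s₀ : ℚ}
    {I : Ideal (MvPolynomial (Fin N) ℂ)} (h : ClassUg χ s₀ I) : WX χ s₀ I := by
  induction h with
  | base s₀ I h => exact wx_of_good (good_of_classU hχ h)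
  | gen s₀ f s hs h ih =>
    obtain ⟨h1, h2, h3⟩ := ih
    have hone : CN.Near χ (linGen f s) 0 1 := near_one_gen hχ f hs (ne_bot_of_near h2)
    refine ⟨?_, hone, per_gen hχ f s h3⟩
    rcases h1 with h1 | h1
    · exact Or.inl (near_gen hχ f hs h1 h3)
    · by_cases hs0 : s₀ = -(s : ℚ)
      · left
        rw [hs0, expo_neg_nat]
        exact hone
      · exact Or.inr (polar_gen f s hs0 h1)
  | stab s₀ F h ih => exact wx_stab hχ s₀ F ih
  | pull s₀ I G h hG ih =>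
    obtain ⟨h1, h2, h3⟩ := ih
    refine ⟨?_, near_of_locPull hχ I 0 G h 1 h2, per_of_locPull hχ I 0 G h h3⟩
    rcases h1 with h1 | h1
    · exact Or.inl (near_of_locPull hχ I 0 G h _ h1)
    · exact Or.inr (zmot_pull I G h h1)
  | adj s₀ I h ih =>
    obtain ⟨h1, h2, h3⟩ := ih
    have hone : CN.Near χ (adjVar I) 0 1 := TV.near_adj hχ h2
    refine ⟨?_, hone, per_adj hχ I h3⟩
    rcases h1 with h1 | h1
    · rw [expo_add_one] at h1
      exact Or.inl (TV.near_adj hχ h1)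
    · by_cases hs : s₀ + 1 = 0
      · left
        have e : expo s₀ = 1 := by
          rw [← expo_add_one, hs, expo]
          simp
        rw [e]
        exact hone
      · exact Or.inr (zmot_adj hs I h1)
  | pow s₀ I k hk h ih =>
    obtain ⟨h1, h2, h3⟩ := ih
    refine ⟨?_, TV.near_powI hχ hk (by rw [one_pow]; exact h2), per_pow hχ I k hk h3⟩
    rcases h1 with h1 | h1
    · rw [expo_mul] at h1
      exact Or.inl (TV.near_powI hχ hk h1)
    · exact Or.inr (zmot_pow I hk h1)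
  | box s₀ I J hI hJ ihI ihJ =>
    obtain ⟨h1, h2, h3⟩ := ihI
    obtain ⟨g1, g2, g3⟩ := ihJ
    refine ⟨?_, TV.near_box_left hχ (ne_bot_of_near g2) h2, per_box hχ I J h3 g3⟩
    rcases h1 with h1 | h1
    · exact Or.inl (TV.near_box_left hχ (ne_bot_of_near g2) h1)
    · rcases g1 with g1 | g1
      · exact Or.inl (TV.near_box_right hχ (ne_bot_of_near h2) g1)
      · exact Or.inr (zmot_box I J h1 g1)

theorem main {N : ℕ} (χ : K0 →+* ℤ) (hχ : IsEulerCharF χ) (s₀ : ℚ)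
    (I : Ideal (MvPolynomial (Fin N) ℂ)) (hI : ClassUg χ s₀ I)
    (hpole : IsPole (Zmot I) s₀) (ε : ℝ) (hε : 0 < ε) :
    ∃ p : Fin N → ℂ, ‖p‖ < ε ∧ (∀ f ∈ I, eval p f = 0) ∧
      ∃ y : ConePoint I p, y.Nonzero ∧
        ∃ Z, IsZeta (fun d => χ (cls (contactArcs I p y d))) Z ∧
          ZeroOrPole Z (Complex.exp (2 * Real.pi * Complex.I * s₀)) := by
  obtain ⟨hn, -, -⟩ := wx_of_classUg hχ hI
  rcases hn with hn | hn
  · obtain ⟨p, hp, hv⟩ := hn ε hε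
    rw [sub_zero] at hp
    obtain ⟨h1, y, hy, Z, hZ, hZP⟩ := cone_of_vis hv
    exact ⟨p, hp, h1, y, hy, Z, hZ, hZP⟩
  · exact absurd hn hpole

end NW
end MotMono
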